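import Pool.Agent.K3h76.UC.Count

set_option autoImplicit false

/-!
Covering a subset of a convex body by translates of the interior.
-/

namespace Pool.Agent.K3h76.UC

open MeasureTheory Module
open scoped Pointwise
open Pool.Agent.H2R2.Cov

section Geo

variable {E : Type*} [NormedAddCommGroup E] [NormedSpace ℝ E] [FiniteDimensional ℝ E]

/-- A net in a subset. -/
theorem exists_net_sub (K : Set E) (hK : Convex ℝ K) (hKc : IsCompact K)
    (hKi : (interior K).Nonempty) (X : Set E) (hX : X ⊆ K) (η : ℝ) (hη : 0 < η) :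
    ∃ S : Finset E, (∀ x ∈ S, x ∈ X) ∧
      (∀ y ∈ X, ∃ x ∈ S, ∃ k ∈ K, ∃ k' ∈ K, y = x + η • (k - k')) ∧
      (S.card : ℝ) ≤ (1 + 1 / η) ^ finrank ℝ E := by
  classical
  let P : Finset E → Prop := fun S => (∀ s ∈ S, s ∈ X) ∧
    (∀ s ∈ S, ∀ t ∈ S, s ≠ t → ∀ k ∈ K, ∀ k' ∈ K, s ≠ t + η • (k - k'))
  have hcardb : ∀ S, P S → (S.card : ℝ) ≤ (1 + 1 / η) ^ finrank ℝ E := by
    intro S hS
    obtain ⟨t, ht⟩ := exists_heavy K hK hKc hKi S (fun x hx => hX (hS.1 x hx)) (fun _ => 1)
      (fun _ _ => zero_le_one) η hη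
    rw [wt_one] at ht
    have h1 : (S.filter (fun x => x - t ∈ η • K)).card ≤ 1 := by
      rw [Finset.card_le_one]
      intro a ha b hb
      rw [Finset.mem_filter] at ha hb
      by_contra hne
      obtain ⟨k, hk, hk'⟩ := ha.2
      obtain ⟨m, hm, hm'⟩ := hb.2
      refine hS.2 a ha.1 b hb.1 hne k hk m hm ?_
      simp only at hk' hm'
      rw [smul_sub, hk', hm']
      abel
    have h2 : ((S.filter (fun x => x - t ∈ η • K)).card : ℝ) ≤ 1 := by exact_mod_cast h1
    have h3 := ht.trans h2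
    rw [Finset.sum_const, nsmul_eq_mul, mul_one] at h3
    have h4 : (1 + 1 / η) = (η / (1 + η))⁻¹ := by field_simp; ring
    rw [h4, inv_pow, ← one_div, le_div_iff₀ (by positivity), mul_comm]
    exact h3
  let N : Set ℕ := {n | ∃ S, P S ∧ S.card = n}
  have hNne : N.Nonempty := ⟨0, ∅, ⟨by simp, by simp⟩, rfl⟩
  have hNb : BddAbove N := by
    refine ⟨⌊(1 + 1 / η) ^ finrank ℝ E⌋₊, ?_⟩
    rintro n ⟨S, hS, rfl⟩
    exact Nat.le_floor (hcardb S hS)
  obtain ⟨S, hS, hcard⟩ := Nat.sSup_mem hNne hNb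
  refine ⟨S, hS.1, ?_, hcardb S hS⟩
  intro x hx
  by_contra hcon
  push Not at hcon
  have hxS : x ∉ S := by
    intro h
    have := hcon x h x (hX hx) x (hX hx)
    simp at this
  have hP : P (insert x S) := by
    constructor
    · intro s hs
      rcases Finset.mem_insert.mp hs with rfl | hs
      · exact hx
      · exact hS.1 s hs
    · intro s hs t ht hne k hk k' hk'
      rcases Finset.mem_insert.mp hs with h1 | hs <;> rcases Finset.mem_insert.mp ht with h2 | ht
      · exact absurd (h1.trans h2.symm) hne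
      · rw [h1]; exact hcon t ht k hk k' hk'
      · rw [h2]
        intro h
        refine hcon s hs k' hk' k hk ?_
        rw [h, smul_sub, smul_sub]
        abel
      · exact hS.2 s hs t ht hne k hk k' hk'
  have hle : (insert x S).card ≤ sSup N := le_csSup hNb ⟨_, hP, rfl⟩
  rw [Finset.card_insert_of_notMem hxS] at hle
  omega

/-- **Covering theorem.** Let `X ⊆ K`. If for each `x ∈ X` the part `θ` of `x + l K` lies in `M`
then `X` is covered by `1 + μ M / (θ² μ (l K)) d log (1 + 1/η)` translates of the interior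
of `K`. -/
theorem cover_sub [MeasurableSpace E] [BorelSpace E] (μ : Measure E) [μ.IsAddHaarMeasure]
    (K : Set E) (hK : Convex ℝ K) (hKc : IsCompact K)
    (hKi : (interior K).Nonempty) (hd : 1 ≤ finrank ℝ E) (X : Set E) (hX : X ⊆ K) (M : Set E)
    (hM : MeasurableSet M) (hMf : μ M ≠ ⊤) (l η θ : ℝ) (hl : 0 < l) (hη : 0 < η) (hθ : 0 < θ)
    (hρ : l + η + η * finrank ℝ E < 1)
    (hXM : ∀ x ∈ X, θ * μ.real (l • K) ≤ μ.real ((l • K) ∩ {y | x + y ∈ M})) :
    ∃ T : Finset E, X ⊆ ⋃ t ∈ T, (fun x => t + x) '' interior K ∧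
      (T.card : ℝ) ≤ 1 + μ.real M / (θ ^ 2 * μ.real (l • K)) *
        (finrank ℝ E * Real.log (1 + 1 / η)) := by
  classical
  set d := finrank ℝ E with hdd
  have hd0 : (0 : ℝ) < d := by exact_mod_cast hd
  have hμ0 : μ K ≠ 0 := fun h => by
    have := isOpen_interior.measure_pos μ hKi
    have h2 : μ (interior K) ≤ μ K := measure_mono interior_subset
    rw [h] at h2
    exact absurd this (not_lt.mpr h2)
  have hL0 : μ (l • K) ≠ 0 := by
    rw [Measure.addHaar_smul, abs_of_nonneg (by positivity)]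
    exact mul_ne_zero (by simpa using pow_pos hl _) hμ0
  have hLf : μ (l • K) ≠ ⊤ := (hKc.smul l).measure_lt_top.ne
  have hLm : MeasurableSet (l • K) := (hKc.smul l).isClosed.measurableSet
  have hLr : 0 < μ.real (l • K) := ENNReal.toReal_pos hL0 hLf
  have hlog : 0 ≤ Real.log (1 + 1 / η) := Real.log_nonneg (by
    have : 0 < 1 / η := by positivity
    linarith)
  rcases Set.eq_empty_or_nonempty X with rfl | ⟨x₀, hx₀⟩
  · refine ⟨∅, by simp, ?_⟩
    simp only [Finset.card_empty, Nat.cast_zero]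
    positivity
  have hshift : ∀ x : E, μ.real ((l • K) ∩ {y | x + y ∈ M}) ≤ μ.real M := by
    intro x
    have h1 : μ ((l • K) ∩ {y | x + y ∈ M}) ≤ μ M := by
      refine (measure_mono Set.inter_subset_right).trans (le_of_eq ?_)
      exact measure_preimage_add μ x M
    exact ENNReal.toReal_mono hMf h1
  have hθ1 : θ ≤ 1 := by
    have h1 := hXM x₀ hx₀
    have h2 : μ.real ((l • K) ∩ {y | x₀ + y ∈ M}) ≤ μ.real (l • K) :=
      ENNReal.toReal_mono hLf (measure_mono Set.inter_subset_left)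
    by_contra hcon
    push Not at hcon
    nlinarith
  have hθM : θ * μ.real (l • K) ≤ μ.real M := (hXM x₀ hx₀).trans (hshift x₀)
  have hMr : 0 < μ.real M := lt_of_lt_of_le (by positivity) hθM
  set q := θ ^ 2 * μ.real (l • K) / μ.real M with hq
  have hq0 : 0 < q := by positivity
  have hq1 : q ≤ 1 := by
    rw [hq, div_le_one hMr]
    nlinarith
  obtain ⟨c, hc⟩ := exists_reflect K hK hKc hKi hd
  obtain ⟨S, hSX, hSnet, hScard⟩ := exists_net_sub K hK hKc hKi X hX η hη
  have hgreedy := Pool.Agent.H815R2.Had.greedy_cover (S := S) (E := E)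
    (fun t s => (s : E) - t ∈ l • K) q hq0 hq1
    (by
      intro A _
      obtain ⟨t, ht⟩ := exists_translate_part μ (A.map (Function.Embedding.subtype _))
        (fun _ => 1) (fun _ _ => zero_le_one) (l • K) M hLm hM hL0 hLf hMf θ hθ.le
        (by
          intro x hx
          rw [Finset.mem_map] at hx
          obtain ⟨a, _, rfl⟩ := hx
          exact hXM _ (hSX _ a.2))
      refine ⟨t, ?_⟩
      rw [wt_one] at ht
      rw [Finset.sum_const, Finset.card_map, nsmul_eq_mul, mul_one] at ht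
      rw [hq, div_mul_eq_mul_div, div_le_iff₀ hMr]
      have e : θ ^ 2 * (A.card : ℝ) * μ.real (l • K) = θ ^ 2 * μ.real (l • K) * A.card := by ring
      rw [e] at ht
      refine ht.trans (le_of_eq ?_)
      rw [Finset.filter_map, Finset.card_map]
      norm_cast)
    ((1 + 1 / η) ^ d) (by
      rw [Fintype.card_coe]; exact hScard) (one_le_pow₀ (by
        have : 0 < 1 / η := by positivity
        linarith))
  obtain ⟨Y, hYcard, hY⟩ := hgreedy
  obtain ⟨z₀, hz₀⟩ := hKi
  set ρ := l + η + η * d with hρdef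
  have hρ0 : 0 < ρ := by positivity
  refine ⟨Y.image (fun t => t - (η * (d + 1)) • c - (1 - ρ) • z₀), ?_, ?_⟩
  · intro y hy
    obtain ⟨x, hxS, k, hk, k', hk', hyx⟩ := hSnet y hy
    obtain ⟨t, htY, ht⟩ := hY ⟨x, hxS⟩
    obtain ⟨k₁, hk₁, hk₁'⟩ := ht
    obtain ⟨k₂, hk₂, hk₂'⟩ := hc k' hk'
    simp only at hk₁'
    -- convex combination
    have hcomb : (l / ρ) • k₁ + (η / ρ) • k + (η * d / ρ) • k₂ ∈ K := by
      have h1 := hK.sum_mem (t := (Finset.univ : Finset (Fin 3)))
        (w := ![l / ρ, η / ρ, η * d / ρ]) (z := ![k₁, k, k₂])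
        (by intro i _; fin_cases i <;> simp <;> positivity)
        (by
          simp [Fin.sum_univ_three]
          field_simp
          rw [hρdef])
        (by intro i _; fin_cases i <;> simp [hk₁, hk, hk₂])
      simpa [Fin.sum_univ_three] using h1
    set k₃ := (l / ρ) • k₁ + (η / ρ) • k + (η * d / ρ) • k₂ with hk₃
    have hρk₃ : ρ • k₃ = l • k₁ + η • k + (η * d) • k₂ := by
      rw [hk₃]
      simp only [smul_add, smul_smul]
      rw [mul_div_cancel₀ _ hρ0.ne', mul_div_cancel₀ _ hρ0.ne', mul_div_cancel₀ _ hρ0.ne']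
    have hint : (1 - ρ) • z₀ + ρ • k₃ ∈ interior K := by
      refine hK.combo_interior_self_subset_interior (a := 1 - ρ) (b := ρ) (by linarith) hρ0.le
        (by ring) ?_
      exact Set.add_mem_add (Set.smul_mem_smul_set hz₀) (Set.smul_mem_smul_set hcomb)
    rw [Set.mem_iUnion₂]
    refine ⟨t - (η * (d + 1)) • c - (1 - ρ) • z₀, Finset.mem_image_of_mem _ htY,
      (1 - ρ) • z₀ + ρ • k₃, hint, ?_⟩
    simp only
    have hx : x = t + l • k₁ := by rw [hk₁']; abel
    have hk'' : -(η • k') = (η * d) • k₂ - (η * (d + 1)) • c := by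
      rw [← smul_neg, hk₂', smul_sub, smul_smul, smul_smul]
    rw [hyx, hx, hρk₃, smul_sub, sub_eq_add_neg (η • k), hk'']
    abel
  · refine le_trans (b := (Y.card : ℝ)) (by exact_mod_cast Finset.card_image_le) ?_
    refine hYcard.trans (le_of_eq ?_)
    rw [Real.log_pow, hq]
    have : (d : ℝ) * Real.log (1 + 1 / η) / (θ ^ 2 * μ.real (l • K) / μ.real M) =
        μ.real M / (θ ^ 2 * μ.real (l • K)) * (d * Real.log (1 + 1 / η)) := by
      field_simp
    rw [this]
    ring

end Geo

end Pool.Agent.K3h76.UC
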