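import Pool.Agent.K3h76.RB.Basic
import Pool.Agent.K3h76.UC.Cover

set_option autoImplicit false

/-!
It is enough to cover the extreme points of a summand.
-/

namespace Pool.Agent.K3h76.UC

open scoped RealInnerProductSpace Pointwise
open Pool.Agent.W396.Il Module MeasureTheory
open Pool.Agent.K3h76.RB

variable {E : Type*} [NormedAddCommGroup E] [InnerProductSpace ℝ E]

/-- The normals at a point are normals at an extreme point. -/
theorem exists_ext {A : Set E} (hAc : IsCompact A) {a : E} (ha : a ∈ A) :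
    ∃ e ∈ A.extremePoints ℝ, ∀ u, Nml A a u → Nml A e u := by
  set F : Set E := {y | y ∈ A ∧ ∀ u, Nml A a u → ⟪u, y⟫ = ⟪u, a⟫} with hF
  have hFA : F ⊆ A := fun y hy => hy.1
  have hFc : IsCompact F := by
    refine hAc.of_isClosed_subset ?_ hFA
    have h1 : F = A ∩ ⋂ u : {u // Nml A a u}, {y | ⟪(u : E), y⟫ = ⟪(u : E), a⟫} := by
      ext y
      simp only [hF, Set.mem_ofPred_eq, Set.mem_inter_iff, Set.mem_iInter, Subtype.forall]
    rw [h1]
    refine hAc.isClosed.inter (isClosed_iInter fun u => ?_)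
    exact isClosed_eq (by fun_prop) continuous_const
  have hFne : F.Nonempty := ⟨a, ha, fun u _ => rfl⟩
  obtain ⟨e, he⟩ := hFc.extremePoints_nonempty hFne
  have hext : IsExtreme ℝ A F := by
    refine ⟨hFA, ?_⟩
    intro x hx y hy z hz hzxy
    refine ⟨hx, fun u hu => ?_⟩
    obtain ⟨s, t, hs, ht, hst, rfl⟩ := hzxy
    have h1 := hz.2 u hu
    rw [inner_add_right, inner_smul_right, inner_smul_right] at h1
    have h2 := hu.2 x hx
    have h3 := hu.2 y hy
    have h4 : s * ⟪u, x⟫ + t * ⟪u, y⟫ ≤ s * ⟪u, x⟫ + t * ⟪u, a⟫ := by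
      have := mul_le_mul_of_nonneg_left h3 ht.le
      linarith
    have h5 : s * ⟪u, a⟫ ≤ s * ⟪u, x⟫ := by
      have : ⟪u, a⟫ = s * ⟪u, a⟫ + t * ⟪u, a⟫ := by rw [← add_mul, hst, one_mul]
      linarith
    exact le_antisymm h2 (le_of_mul_le_mul_left h5 hs)
  refine ⟨e, hext.extremePoints_subset_extremePoints he, fun u hu => ⟨hu.1, fun y hy => ?_⟩⟩
  rw [he.1.2 u hu]
  exact hu.2 y hy

/-- A covering of the extreme points of `A` gives a covering of `A + B`. -/
theorem cov_sum [FiniteDimensional ℝ E] {A B : Set E} (hA : Convex ℝ A) (hAc : IsCompact A)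
    (hAi : (interior A).Nonempty) (hB : Convex ℝ B) (hBc : IsCompact B) (hBn : B.Nonempty)
    (T : Finset E) (hT : A.extremePoints ℝ ⊆ ⋃ t ∈ T, (fun x => t + x) '' interior A) :
    Cov T.card (A + B) := by
  have hKi : (interior (A + B)).Nonempty := by
    obtain ⟨z, hz⟩ := hAi
    obtain ⟨b, hb⟩ := hBn
    refine ⟨z + b, ?_⟩
    have h1 : interior A + B ⊆ interior (A + B) :=
      interior_maximal (Set.add_subset_add_right interior_subset)
        (isOpen_interior.add_right)
    exact h1 (Set.add_mem_add hz hb)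
  refine cover_of_lit (hA.add hB) (hAc.add hBc) hKi T ?_
  intro x hx
  obtain ⟨a, ha, b, hb, rfl⟩ := hx
  obtain ⟨e, he, hen⟩ := exists_ext hAc ha
  have h1 := hT he
  rw [Set.mem_iUnion₂] at h1
  obtain ⟨t, htT, y, hy, hye⟩ := h1
  refine ⟨t, htT, fun u hu => ?_⟩
  have hua : Nml A a u := by
    refine ⟨hu.1, fun a' ha' => ?_⟩
    have := hu.2 (a' + b) (Set.add_mem_add ha' hb)
    rw [inner_add_right, inner_add_right] at this
    linarith
  have hue := hen u hua
  -- `y` is an interior point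
  obtain ⟨ε, hε, hball⟩ := Metric.isOpen_iff.1 isOpen_interior y hy
  have h2 : y + (ε / 2) • u ∈ A := by
    apply interior_subset
    apply hball
    rw [Metric.mem_ball, dist_eq_norm, add_sub_cancel_left, norm_smul, hu.1, mul_one,
      Real.norm_of_nonneg (by positivity)]
    linarith
  have h3 := hue.2 _ h2
  rw [inner_add_right, inner_smul_right, real_inner_self_eq_norm_sq, hu.1] at h3
  have h4 : ⟪u, e⟫ = ⟪u, t⟫ + ⟪u, y⟫ := by rw [← hye, inner_add_right]
  rw [real_inner_comm]
  linarith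

end Pool.Agent.K3h76.UC
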