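import Pool.Agent.K3h76.UC.Ball
import Pool.Agent.H212R2.KLS.T1

set_option autoImplicit false

/-!
Bodies with a modulus of convexity.
-/

namespace Pool.Agent.K3h76.UC

open scoped RealInnerProductSpace Pointwise ENNReal
open Pool.Agent.W396.Il Module MeasureTheory
open Pool.Agent.K3h76.RB

variable {E : Type*} [NormedAddCommGroup E] [InnerProductSpace ℝ E] [FiniteDimensional ℝ E]
  [MeasurableSpace E] [BorelSpace E] (μ : Measure E) [μ.IsAddHaarMeasure]

/-- Brunn-Minkowski, without roots. -/
theorem bm (d : ℕ) (hd : finrank ℝ E = d) (N L A : Set E) (hN : MeasurableSet N)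
    (hL : MeasurableSet L) (hA : MeasurableSet A) (hNf : μ N ≠ ⊤)
    (hLf : μ L ≠ ⊤) (hAf : μ A ≠ ⊤) (m δ : ℝ) (hm : 0 < m) (hδ : 0 < δ)
    (hvol : μ.real N = m ^ d * μ.real L) (h : ∀ z ∈ N, ∀ w ∈ L, z + δ • w ∈ A) :
    (m + δ) ^ d * μ.real L ≤ μ.real A := by
  set t : ℝ := δ / (m + δ) with ht
  have hmδ : 0 < m + δ := by positivity
  have ht0 : 0 < t := by positivity
  have ht1 : t < 1 := by rw [ht, div_lt_one hmδ]; linarith
  have h1t : 1 - t = m / (m + δ) := by rw [ht]; field_simp; ring
  -- the three sets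
  set P : Set E := (fun z => m • z) ⁻¹' N with hP
  set D : Set E := (fun z => (m + δ) • z) ⁻¹' A with hD
  have hPm : MeasurableSet P := (measurable_const_smul m) hN
  have hDm : MeasurableSet D := (measurable_const_smul (m + δ)) hA
  have hPvol : μ P = ENNReal.ofReal ((m ^ d)⁻¹) * μ N := by
    rw [hP, Measure.addHaar_preimage_smul μ hm.ne', hd, abs_of_pos (by positivity)]
  have hDvol : μ D = ENNReal.ofReal (((m + δ) ^ d)⁻¹) * μ A := by
    rw [hD, Measure.addHaar_preimage_smul μ hmδ.ne', hd, abs_of_pos (by positivity)]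
  have hPL : μ P = μ L := by
    have h1 : μ.real P = μ.real L := by
      rw [measureReal_def, hPvol, ENNReal.toReal_mul, ENNReal.toReal_ofReal (by positivity)]
      have : (μ N).toReal = m ^ d * μ.real L := hvol
      rw [this]
      field_simp
    have hPf : μ P ≠ ⊤ := by rw [hPvol]; exact ENNReal.mul_ne_top ENNReal.ofReal_ne_top hNf
    exact (ENNReal.toReal_eq_toReal_iff' hPf hLf).1 h1
  have key := Pool.Agent.H212R2.KLS.PL μ t ht0 ht1 (P.indicator 1) (L.indicator 1)
    (D.indicator 1) (measurable_one.indicator hPm) (measurable_one.indicator hL)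
    (measurable_one.indicator hDm) (by
      intro x y
      by_cases hx : x ∈ P
      · by_cases hy : y ∈ L
        · have hmem : (1 - t) • x + t • y ∈ D := by
            show (m + δ) • ((1 - t) • x + t • y) ∈ A
            have e1 : (m + δ) • ((1 - t) • x + t • y) = m • x + δ • y := by
              rw [smul_add, smul_smul, smul_smul, h1t, ht]
              congr 2
              · field_simp
              · field_simp
            rw [e1]
            exact h _ hx _ hy
          rw [Set.indicator_of_mem hx, Set.indicator_of_mem hy, Set.indicator_of_mem hmem]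
          simp
        · rw [Set.indicator_of_notMem hy, ENNReal.zero_rpow_of_pos ht0, mul_zero]
          exact zero_le
      · rw [Set.indicator_of_notMem hx, ENNReal.zero_rpow_of_pos (by linarith), zero_mul]
        exact zero_le)
  rw [lintegral_indicator_one hPm, lintegral_indicator_one hL, lintegral_indicator_one hDm,
    hPL] at key
  have hLD : μ L ≤ μ D := by
    refine le_trans ?_ key
    rcases eq_or_ne (μ L) 0 with h0 | h0
    · rw [h0]; exact zero_le
    · rw [← ENNReal.rpow_add _ _ h0 hLf]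
      norm_num
  have hDf : μ D ≠ ⊤ := by rw [hDvol]; exact ENNReal.mul_ne_top ENNReal.ofReal_ne_top hAf
  have h2 : μ.real L ≤ ((m + δ) ^ d)⁻¹ * μ.real A := by
    have h3 := ENNReal.toReal_mono hDf hLD
    rw [hDvol, ENNReal.toReal_mul, ENNReal.toReal_ofReal (by positivity)] at h3
    exact h3
  rw [inv_mul_eq_div, le_div_iff₀ (by positivity)] at h2
  linarith

/-- **Modulus of convexity.** -/
theorem mid_crit (A B : Set E) (hA : Convex ℝ A) (hAc : IsCompact A)
    (hAi : (interior A).Nonempty) (hB : Convex ℝ B) (hBc : IsCompact B) (hBn : B.Nonempty)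
    (d : ℕ) (hd : finrank ℝ E = d) (hd1 : 1 ≤ d) (L : Set E) (hLc : IsCompact L)
    (hLn : (interior L).Nonempty) (s δ v : ℝ) (hs : 0 < s) (hδ : 0 < δ) (hv : 0 < v)
    (hvol : μ.real A = v ^ d * μ.real L) (h2 : 2 * s ^ d ≤ v ^ d)
    (hmid : ∀ x ∈ A.extremePoints ℝ, ∀ u ∈ A, x - u ∉ s • L →
      ∀ w ∈ L, (1 / 2 : ℝ) • (x + u) + δ • w ∈ A) :
    δ ≤ v ∧ ∃ T : Finset E, A + B ⊆ ⋃ t ∈ T, (fun x => t + x) '' interior (A + B) ∧
      (T.card : ℝ) ≤ 1 + 32 * (2 * (1 - δ / v)) ^ d *
        (d * Real.log (1 + 8 * d * (d + 1))) := by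
  have hd0 : (0 : ℝ) < d := by exact_mod_cast hd1
  have hLm : MeasurableSet L := hLc.isClosed.measurableSet
  have hLf : μ L ≠ ⊤ := hLc.measure_lt_top.ne
  have hLr : 0 < μ.real L := by
    refine ENNReal.toReal_pos ?_ hLf
    intro h1
    have h3 := isOpen_interior.measure_pos μ hLn
    have h4 : μ (interior L) ≤ μ L := measure_mono interior_subset
    rw [h1] at h4
    exact absurd h3 (not_lt.mpr h4)
  have hAm : MeasurableSet A := hAc.isClosed.measurableSet
  have hAf : μ A ≠ ⊤ := hAc.measure_lt_top.ne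
  have hAr : 0 < μ.real A := by rw [hvol]; positivity
  obtain ⟨w₀, hw₀'⟩ := hLn
  have hw₀ : w₀ ∈ L := interior_subset hw₀'
  set N : Set E := {z | ∀ w ∈ L, z + δ • w ∈ A} with hN
  have hNc : IsClosed N := by
    have h1 : N = ⋂ w : L, (fun z => z + δ • (w : E)) ⁻¹' A := by
      ext z
      simp only [hN, Set.mem_ofPred_eq, Set.mem_iInter, Set.mem_preimage, Subtype.forall]
    rw [h1]
    exact isClosed_iInter fun w => hAc.isClosed.preimage (by fun_prop)
  have hNm : MeasurableSet N := hNc.measurableSet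
  have hNA : μ N ≤ μ A := by
    have h1 : N ⊆ (fun z => z + δ • w₀) ⁻¹' A := fun z hz => hz w₀ hw₀
    exact (measure_mono h1).trans (le_of_eq (measure_preimage_add_right μ _ A))
  have hNf : μ N ≠ ⊤ := ne_top_of_le_ne_top hAf hNA
  set M : Set E := (fun z => (1 / 2 : ℝ) • z) ⁻¹' N with hM
  have hMm : MeasurableSet M := (measurable_const_smul (1 / 2 : ℝ)) hNm
  have hMvol : μ M = ENNReal.ofReal (2 ^ d) * μ N := by
    rw [hM, Measure.addHaar_preimage_smul μ (by norm_num), hd, abs_of_pos (by positivity)]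
    congr 2
    rw [one_div, inv_pow, inv_inv]
  have hMf : μ M ≠ ⊤ := by rw [hMvol]; exact ENNReal.mul_ne_top ENNReal.ofReal_ne_top hNf
  have hMr : μ.real M = 2 ^ d * μ.real N := by
    rw [measureReal_def, hMvol, ENNReal.toReal_mul, ENNReal.toReal_ofReal (by positivity)]
    rfl
  -- the parts
  have hsum : ∀ x ∈ A.extremePoints ℝ, ∀ u ∈ A, x - u ∉ s • L → x + u ∈ M := by
    intro x hx u hu hxu w hw
    exact hmid x hx u hu hxu w hw
  have hpart : Part μ A (A.extremePoints ℝ) M (1 / 2) := by
    intro x hx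
    set F : Set E := {u | x - u ∈ s • L} with hF
    have hFm : MeasurableSet F := by
      have h1 : F = (fun u => x - u) ⁻¹' (s • L) := rfl
      rw [h1]
      exact (measurable_const.sub measurable_id) (hLc.smul s).isClosed.measurableSet
    have hFvol : μ F = ENNReal.ofReal (s ^ d) * μ L := by
      have h1 : F = (fun u => x - u) ⁻¹' (s • L) := rfl
      have h2 : μ F = μ (s • L) := by
        have h3 := (MeasureTheory.Measure.measurePreserving_sub_left μ x).measure_preimage
          (hLc.smul s).isClosed.measurableSet.nullMeasurableSet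
        rw [h1]
        exact h3
      rw [h2, Measure.addHaar_smul, hd, abs_of_pos (by positivity)]
    have hFf : μ F ≠ ⊤ := by rw [hFvol]; exact ENNReal.mul_ne_top ENNReal.ofReal_ne_top hLf
    have hFr : μ.real F = s ^ d * μ.real L := by
      rw [measureReal_def, hFvol, ENNReal.toReal_mul, ENNReal.toReal_ofReal (by positivity)]
      rfl
    have h3 : μ.real A ≤ μ.real (A ∩ {u | x + u ∈ M}) + μ.real F := by
      have hf1 : μ (A ∩ {u | x + u ∈ M}) ≠ ⊤ :=
        ne_top_of_le_ne_top hAf (measure_mono Set.inter_subset_left)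
      rw [measureReal_def, measureReal_def, measureReal_def, ← ENNReal.toReal_add hf1 hFf]
      refine ENNReal.toReal_mono (ENNReal.add_ne_top.mpr ⟨hf1, hFf⟩) ?_
      refine (measure_mono ?_).trans (measure_union_le _ _)
      intro u hu
      by_cases huF : u ∈ F
      · exact Or.inr huF
      · exact Or.inl ⟨hu, hsum x hx u hu huF⟩
    rw [hFr] at h3
    have h4 : 2 * s ^ d * μ.real L ≤ v ^ d * μ.real L := mul_le_mul_of_nonneg_right h2 hLr.le
    rw [← hvol] at h4
    linarith
  -- `N` has positive volume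
  obtain ⟨x₀, hx₀⟩ := hAc.extremePoints_nonempty (hAi.mono interior_subset)
  have hMpos : 0 < μ.real M := by
    have h1 := hpart x₀ hx₀
    have h3 : μ.real (A ∩ {u | x₀ + u ∈ M}) ≤ μ.real M := by
      refine ENNReal.toReal_mono hMf ?_
      exact (measure_mono Set.inter_subset_right).trans (le_of_eq (measure_preimage_add μ x₀ M))
    have : 0 < 1 / 2 * μ.real A := by positivity
    linarith
  have hNpos : 0 < μ.real N := by
    rw [hMr] at hMpos
    exact pos_of_mul_pos_right hMpos (by positivity)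
  set m : ℝ := (μ.real N / μ.real L) ^ ((d : ℝ)⁻¹) with hm
  have hmpos : 0 < m := Real.rpow_pos_of_pos (by positivity) _
  have hmd : m ^ d = μ.real N / μ.real L := by
    rw [hm]
    exact Real.rpow_inv_natCast_pow (by positivity) (by omega)
  have hmN : μ.real N = m ^ d * μ.real L := by
    rw [hmd]; field_simp
  have hbm := bm μ d hd N L A hNm hLm hAm hNf hLf hAf m δ hmpos hδ hmN (fun z hz w hw => hz w hw)
  rw [hvol] at hbm
  have h5 : (m + δ) ^ d ≤ v ^ d := le_of_mul_le_mul_right hbm hLr
  have h6 : m + δ ≤ v := le_of_pow_le_pow_left₀ (by omega) hv.le h5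
  refine ⟨by linarith, ?_⟩
  obtain ⟨T, hT, hcard⟩ := crit μ A B hA hAc hAi hB hBc hBn d hd hd1 M hMm hMf (1 / 2)
    (by norm_num) (by norm_num) hpart
  refine ⟨T, hT, hcard.trans ?_⟩
  have e1 : (1 : ℝ) + 4 * d * (d + 1) / (1 / 2) = 1 + 8 * d * (d + 1) := by
    rw [div_div_eq_mul_div]; ring
  rw [e1]
  have hlog : 0 ≤ (d : ℝ) * Real.log (1 + 8 * d * (d + 1)) := by
    refine mul_nonneg hd0.le (Real.log_nonneg ?_)
    have : 0 < 8 * (d : ℝ) * (d + 1) := by positivity
    linarith
  have h7 : μ.real M / μ.real A ≤ (2 * (1 - δ / v)) ^ d := by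
    rw [hMr, hvol, hmN, mul_pow]
    have e2 : 2 ^ d * (m ^ d * μ.real L) / (v ^ d * μ.real L) = 2 ^ d * (m / v) ^ d := by
      rw [div_pow]
      field_simp
    rw [e2]
    refine mul_le_mul_of_nonneg_left ?_ (by positivity)
    refine pow_le_pow_left₀ (by positivity) ?_ d
    have : 1 - δ / v = (v - δ) / v := by field_simp
    rw [this]
    exact div_le_div_of_nonneg_right (by linarith) hv.le
  have h8 : 8 / (1 / 2 : ℝ) ^ 2 * (μ.real M / μ.real A) ≤ 32 * (2 * (1 - δ / v)) ^ d := by
    have : 8 / (1 / 2 : ℝ) ^ 2 = 32 := by norm_num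
    rw [this]
    exact mul_le_mul_of_nonneg_left h7 (by norm_num)
  have := mul_le_mul_of_nonneg_right h8 hlog
  linarith

end Pool.Agent.K3h76.UC
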