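import Pool.Agent.K3h76.UC.Crit

set_option autoImplicit false

/-!
Bodies which fill a large part of a ball.
-/

namespace Pool.Agent.K3h76.UC

open scoped RealInnerProductSpace Pointwise
open Pool.Agent.W396.Il Module MeasureTheory
open Pool.Agent.K3h76.RB

variable {E : Type*} [NormedAddCommGroup E] [InnerProductSpace ℝ E] [FiniteDimensional ℝ E]
  [MeasurableSpace E] [BorelSpace E] (μ : Measure E) [μ.IsAddHaarMeasure]

/-- Markov: if the mean of `‖x + u - p‖²` is at most `ρ²` then `x + u` is in the ball of radius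
`√(1 + 1/d) ρ` about `p` for the part `1 / (d + 1)` of `A`. -/
theorem markov (A : Set E) (hAc : IsCompact A) (d : ℕ) (hd1 : 1 ≤ d) (x p : E) (ρ : ℝ)
    (hρ : 0 < ρ) (h : ∫ u in A, ‖x + u - p‖ ^ 2 ∂μ ≤ ρ ^ 2 * μ.real A) (r : ℝ)
    (hr : r ^ 2 = (1 + 1 / d) * ρ ^ 2) (hr0 : 0 ≤ r) :
    1 / ((d : ℝ) + 1) * μ.real A ≤ μ.real (A ∩ {u | x + u ∈ Metric.closedBall p r}) := by
  have hd0 : (0 : ℝ) < d := by exact_mod_cast hd1
  have hAf : μ A ≠ ⊤ := hAc.measure_lt_top.ne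
  have hAm : MeasurableSet A := hAc.isClosed.measurableSet
  set G : Set E := {u | x + u ∈ Metric.closedBall p r} with hG
  have hGm : MeasurableSet G := (measurable_const_add x) Metric.isClosed_closedBall.measurableSet
  have hrp : 0 < r ^ 2 := by rw [hr]; positivity
  have hint : IntegrableOn (fun u => ‖x + u - p‖ ^ 2) A μ := by
    refine ContinuousOn.integrableOn_compact hAc ?_
    fun_prop
  have h1 : r ^ 2 * μ.real (A \ G) ≤ ∫ u in A, ‖x + u - p‖ ^ 2 ∂μ := by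
    have h2 : ∫ u in A \ G, (r ^ 2 : ℝ) ∂μ ≤ ∫ u in A \ G, ‖x + u - p‖ ^ 2 ∂μ := by
      refine setIntegral_mono_on (integrableOn_const (ne_top_of_le_ne_top hAf
        (measure_mono Set.diff_subset))) (hint.mono_set Set.diff_subset) (hAm.diff hGm) ?_
      intro u hu
      have h3 : u ∉ G := hu.2
      rw [hG, Set.mem_ofPred_eq, Metric.mem_closedBall, dist_eq_norm, not_le] at h3
      exact pow_le_pow_left₀ hr0 h3.le 2
    rw [setIntegral_const, smul_eq_mul] at h2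
    have h4 : ∫ u in A \ G, ‖x + u - p‖ ^ 2 ∂μ ≤ ∫ u in A, ‖x + u - p‖ ^ 2 ∂μ :=
      setIntegral_mono_set hint (Filter.Eventually.of_forall fun u => sq_nonneg _)
        (Filter.Eventually.of_forall Set.diff_subset)
    linarith
  have h5 : μ.real A = μ.real (A ∩ G) + μ.real (A \ G) := by
    rw [measureReal_inter_add_sdiff hGm hAf]
  have h6 : (1 + 1 / (d : ℝ)) * ρ ^ 2 * μ.real (A \ G) ≤ ρ ^ 2 * μ.real A := by
    rw [← hr]; exact h1.trans h
  have h7 : (1 + 1 / (d : ℝ)) * μ.real (A \ G) ≤ μ.real A := by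
    have : ρ ^ 2 * ((1 + 1 / (d : ℝ)) * μ.real (A \ G)) ≤ ρ ^ 2 * μ.real A := by linarith
    exact le_of_mul_le_mul_left this (by positivity)
  have h8 : μ.real (A \ G) ≤ d / (d + 1) * μ.real A := by
    have h9 : (d : ℝ) / (d + 1) * ((1 + 1 / (d : ℝ)) * μ.real (A \ G)) = μ.real (A \ G) := by
      field_simp
    rw [← h9]
    exact mul_le_mul_of_nonneg_left h7 (by positivity)
  have h10 : 1 / ((d : ℝ) + 1) * μ.real A = μ.real A - d / (d + 1) * μ.real A := by
    field_simp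
    ring
  rw [h10]
  linarith

/-- The mean of `‖x + u - c - g‖²`, `g` the centroid. -/
theorem mean_sq (A : Set E) (hAc : IsCompact A) (g c x : E)
    (hg : ∫ u in A, u ∂μ = μ.real A • g) :
    ∫ u in A, ‖x + u - (c + g)‖ ^ 2 ∂μ = ‖x - c‖ ^ 2 * μ.real A + ∫ u in A, ‖u - g‖ ^ 2 ∂μ := by
  have hAf : μ A ≠ ⊤ := hAc.measure_lt_top.ne
  have h1 : ∀ u, ‖x + u - (c + g)‖ ^ 2 = ‖x - c‖ ^ 2 + 2 * ⟪x - c, u - g⟫ + ‖u - g‖ ^ 2 := by
    intro u
    have : x + u - (c + g) = (x - c) + (u - g) := by abel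
    rw [this, norm_add_sq_real]
  simp_rw [h1]
  have hi1 : IntegrableOn (fun _ : E => ‖x - c‖ ^ 2) A μ := integrableOn_const hAf
  have hi2 : IntegrableOn (fun u => 2 * ⟪x - c, u - g⟫) A μ :=
    ContinuousOn.integrableOn_compact hAc (by fun_prop)
  have hi3 : IntegrableOn (fun u => ‖u - g‖ ^ 2) A μ :=
    ContinuousOn.integrableOn_compact hAc (by fun_prop)
  have ea : ∫ u in A, (‖x - c‖ ^ 2 + 2 * ⟪x - c, u - g⟫ + ‖u - g‖ ^ 2) ∂μ =
      ∫ u in A, (‖x - c‖ ^ 2 + 2 * ⟪x - c, u - g⟫) ∂μ + ∫ u in A, ‖u - g‖ ^ 2 ∂μ :=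
    integral_add (hi1.add hi2) hi3
  have eb : ∫ u in A, (‖x - c‖ ^ 2 + 2 * ⟪x - c, u - g⟫) ∂μ =
      ∫ _ in A, ‖x - c‖ ^ 2 ∂μ + ∫ u in A, 2 * ⟪x - c, u - g⟫ ∂μ :=
    integral_add hi1 hi2
  rw [ea, eb]
  have h2 : ∫ u in A, 2 * ⟪x - c, u - g⟫ ∂μ = 0 := by
    have hi4 : IntegrableOn (fun u : E => u) A μ :=
      ContinuousOn.integrableOn_compact hAc (by fun_prop)
    have hi5 : IntegrableOn (fun u : E => u - g) A μ :=
      ContinuousOn.integrableOn_compact hAc (by fun_prop)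
    rw [integral_const_mul, integral_inner hi5]
    rw [integral_sub hi4 (integrableOn_const hAf), hg, setIntegral_const, sub_self, inner_zero_right,
      mul_zero]
  rw [h2, setIntegral_const, smul_eq_mul]
  ring

theorem vol_ball (d : ℕ) (hd : finrank ℝ E = d) (p : E) (r : ℝ) (hr : 0 ≤ r) :
    μ.real (Metric.closedBall p r) = r ^ d * μ.real (Metric.closedBall 0 1) := by
  rw [measureReal_def, Measure.addHaar_closedBall _ _ hr, hd, ENNReal.toReal_mul,
    ENNReal.toReal_ofReal (by positivity), measureReal_def, Measure.addHaar_unitClosedBall_eq_addHaar_unitBall]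

theorem ball_crit (A B : Set E) (hA : Convex ℝ A) (hAc : IsCompact A)
    (hAi : (interior A).Nonempty) (hB : Convex ℝ B) (hBc : IsCompact B) (hBn : B.Nonempty)
    (d : ℕ) (hd : finrank ℝ E = d) (hd1 : 1 ≤ d) (c g : E) (R ρ : ℝ) (hρ : 0 < ρ)
    (hAR : A ⊆ Metric.closedBall c R)
    (hg : ∫ u in A, u ∂μ = μ.real A • g)
    (hm : R ^ 2 * μ.real A + ∫ u in A, ‖u - g‖ ^ 2 ∂μ ≤ ρ ^ 2 * μ.real A) :
    ∃ T : Finset E, A + B ⊆ ⋃ t ∈ T, (fun x => t + x) '' interior (A + B) ∧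
      (T.card : ℝ) ≤ 1 + 14 * (d + 1) ^ 2 * (μ.real (Metric.closedBall (0 : E) ρ) / μ.real A) *
        (d * Real.log (1 + 4 * d * (d + 1) ^ 2)) := by
  have hd0 : (0 : ℝ) < d := by exact_mod_cast hd1
  set r : ℝ := Real.sqrt ((1 + 1 / d) * ρ ^ 2) with hr
  have hr0 : 0 ≤ r := Real.sqrt_nonneg _
  have hr2 : r ^ 2 = (1 + 1 / d) * ρ ^ 2 := Real.sq_sqrt (by positivity)
  have hAr : 0 ≤ μ.real A := measureReal_nonneg
  obtain ⟨T, hT, hcard⟩ := crit μ A B hA hAc hAi hB hBc hBn d hd hd1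
    (Metric.closedBall (c + g) r) Metric.isClosed_closedBall.measurableSet
    (isCompact_closedBall _ _).measure_lt_top.ne (1 / (d + 1)) (by positivity) (by
      rw [div_le_one (by positivity)]; linarith) (by
      intro x hx
      refine markov μ A hAc d hd1 x (c + g) ρ hρ ?_ r hr2 hr0
      rw [mean_sq μ A hAc g c x hg]
      refine le_trans ?_ hm
      have h1 : ‖x - c‖ ≤ R := by
        have := hAR (extremePoints_subset hx)
        rwa [Metric.mem_closedBall, dist_eq_norm] at this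
      have h2 : ‖x - c‖ ^ 2 ≤ R ^ 2 := pow_le_pow_left₀ (norm_nonneg _) h1 2
      have := mul_le_mul_of_nonneg_right h2 hAr
      linarith)
  refine ⟨T, hT, hcard.trans ?_⟩
  have e1 : (1 : ℝ) + 4 * d * (d + 1) / (1 / (d + 1)) = 1 + 4 * d * (d + 1) ^ 2 := by
    field_simp
  rw [e1]
  have hlog : 0 ≤ (d : ℝ) * Real.log (1 + 4 * d * (d + 1) ^ 2) := by
    refine mul_nonneg hd0.le (Real.log_nonneg ?_)
    have : 0 < 4 * (d : ℝ) * (d + 1) ^ 2 := by positivity
    linarith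
  have e2 : 8 / (1 / ((d : ℝ) + 1)) ^ 2 = 8 * (d + 1) ^ 2 := by
    field_simp
  rw [e2]
  -- the radius
  have hball : μ.real (Metric.closedBall (c + g) r) ≤
      7 / 4 * μ.real (Metric.closedBall (0 : E) ρ) := by
    rw [vol_ball μ d hd _ r hr0, vol_ball μ d hd _ ρ hρ.le]
    have hω : 0 ≤ μ.real (Metric.closedBall (0 : E) 1) := measureReal_nonneg
    rw [← mul_assoc]
    refine mul_le_mul_of_nonneg_right ?_ hω
    refine le_of_sq_le_sq ?_ (by positivity)
    have e3 : (r ^ d) ^ 2 = (r ^ 2) ^ d := by ring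
    rw [e3, hr2, mul_pow]
    have e4 : (1 + 1 / (d : ℝ)) ^ d ≤ Real.exp 1 := by
      have h1 : (1 + 1 / (d : ℝ)) ≤ Real.exp (1 / d) := by
        have := Real.add_one_le_exp (1 / (d : ℝ))
        linarith
      calc (1 + 1 / (d : ℝ)) ^ d ≤ Real.exp (1 / d) ^ d := by gcongr
        _ = Real.exp (d * (1 / d)) := by rw [← Real.exp_nat_mul]
        _ = Real.exp 1 := by
          congr 1
          field_simp
    have e5 : Real.exp 1 ≤ (7 / 4) ^ 2 := by
      have := Real.exp_one_lt_d9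
      norm_num
      linarith
    calc (1 + 1 / (d : ℝ)) ^ d * (ρ ^ 2) ^ d ≤ (7 / 4) ^ 2 * (ρ ^ 2) ^ d := by
          gcongr
          exact e4.trans e5
      _ = (7 / 4 * ρ ^ d) ^ 2 := by ring
  have h3 : 8 * ((d : ℝ) + 1) ^ 2 * (μ.real (Metric.closedBall (c + g) r) / μ.real A) ≤
      14 * (d + 1) ^ 2 * (μ.real (Metric.closedBall (0 : E) ρ) / μ.real A) := by
    have h4 : μ.real (Metric.closedBall (c + g) r) / μ.real A ≤
        7 / 4 * μ.real (Metric.closedBall (0 : E) ρ) / μ.real A :=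
      div_le_div_of_nonneg_right hball hAr
    have h5 := mul_le_mul_of_nonneg_left h4 (show (0 : ℝ) ≤ 8 * (d + 1) ^ 2 by positivity)
    refine h5.trans (le_of_eq ?_)
    ring
  have := mul_le_mul_of_nonneg_right h3 hlog
  linarith

end Pool.Agent.K3h76.UC
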