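import Pool.Agent.H2R2.Cov2

set_option autoImplicit false

/-!
The counting inequality for sums which fall into a given set with a given probability.
-/

namespace Pool.Agent.K3h76.UC

open MeasureTheory Module
open scoped Pointwise
open Pool.Agent.H2R2.Cov

section Count

variable {E : Type*} [NormedAddCommGroup E] [NormedSpace ℝ E] [FiniteDimensional ℝ E]
  [MeasurableSpace E] [BorelSpace E] (μ : Measure E) [μ.IsAddHaarMeasure]

omit [NormedSpace ℝ E] [FiniteDimensional ℝ E] [MeasurableSpace E] [BorelSpace E] in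
theorem wt_nonneg (A : Finset E) (w : E → ℝ) (hw : ∀ x ∈ A, 0 ≤ w x) (L : Set E) (t : E) :
    0 ≤ wt A w L t := by
  unfold wt
  refine Finset.sum_nonneg fun x hx => ?_
  split_ifs
  · exact hw x hx
  · exact le_rfl

/-- The mean square of the number of points of `A` in a translate of `L`. -/
theorem sq_bound (A : Finset E) (w : E → ℝ) (hw : ∀ x ∈ A, 0 ≤ w x) (L : Set E)
    (hL : MeasurableSet L) (hLf : μ L ≠ ⊤) (q : ℝ) (hq : ∀ t, wt A w L t ≤ q) :
    Integrable (fun z => (∑ x ∈ A, w x * fx L x z) ^ 2) μ ∧
    ∫ z, (∑ x ∈ A, w x * fx L x z) ^ 2 ∂μ ≤ (∑ x ∈ A, w x) * (q * μ.real L) := by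
  classical
  set W := ∑ x ∈ A, w x with hW
  set g : E → ℝ := fun z => ∑ x ∈ A, w x * fx L x z with hg
  have hg2e : ∀ z, g z ^ 2 = ∑ x' ∈ A, ∑ x ∈ A, w x' * (w x * (fx L x z * fx L x' z)) := by
    intro z
    rw [sq, hg]
    simp only
    rw [Finset.sum_mul_sum, Finset.sum_comm]
    refine Finset.sum_congr rfl fun x _ => Finset.sum_congr rfl fun y _ => ?_
    ring
  have hg2i : Integrable (fun z => g z ^ 2) μ := by
    simp_rw [hg2e]
    refine integrable_finsetSum _ fun x' _ => integrable_finsetSum _ fun x _ => ?_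
    exact ((fx_mul_integrable μ L hL hLf x x').const_mul _).const_mul _
  refine ⟨hg2i, ?_⟩
  have hshift : ∀ x x' : E, ∫ z, fx L x z * fx L x' z ∂μ
      = ∫ y, L.indicator (fun _ => (1 : ℝ)) y * L.indicator (fun _ => (1 : ℝ)) (x - (x' - y)) ∂μ := by
    intro x x'
    rw [← integral_add_right_eq_self (fun z => fx L x z * fx L x' z) x]
    congr 1
    ext y
    unfold fx
    congr 2
    · abel
    · abel
  have hind_int : ∀ x x' : E, Integrable (fun y => L.indicator (fun _ => (1 : ℝ)) y *
      L.indicator (fun _ => (1 : ℝ)) (x - (x' - y))) μ := by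
    intro x x'
    have h := (fx_mul_integrable μ L hL hLf x x').comp_add_right x
    refine h.congr (Filter.Eventually.of_forall fun y => ?_)
    simp only [fx]
    congr 2
    · abel
    · abel
  change ∫ z, g z ^ 2 ∂μ ≤ W * (q * μ.real L)
  simp_rw [hg2e]
  rw [integral_finsetSum _ (fun x' _ => integrable_finsetSum _ fun x _ =>
    ((fx_mul_integrable μ L hL hLf x x').const_mul _).const_mul _)]
  rw [hW, Finset.sum_mul]
  refine Finset.sum_le_sum fun x' hx' => ?_
  have e1 : ∫ z, ∑ x ∈ A, w x' * (w x * (fx L x z * fx L x' z)) ∂μ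
      = w x' * ∫ y, L.indicator (fun _ => (1 : ℝ)) y * wt A w L (x' - y) ∂μ := by
    rw [integral_finsetSum _ (fun x _ =>
      ((fx_mul_integrable μ L hL hLf x x').const_mul _).const_mul _)]
    simp_rw [integral_const_mul, hshift]
    rw [← Finset.mul_sum]
    congr 1
    simp_rw [← integral_const_mul]
    rw [← integral_finsetSum _ (fun x _ => (hind_int x x').const_mul _)]
    congr 1
    ext y
    unfold wt
    rw [Finset.mul_sum]
    refine Finset.sum_congr rfl fun x _ => ?_
    by_cases h : x - (x' - y) ∈ L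
    · rw [Set.indicator_of_mem h, if_pos h]; ring
    · rw [Set.indicator_of_notMem h, if_neg h]; ring
  rw [e1]
  refine mul_le_mul_of_nonneg_left ?_ (hw x' hx')
  have e2 : q * μ.real L = ∫ y, L.indicator (fun _ => (1 : ℝ)) y * q ∂μ := by
    rw [integral_mul_const, integral_indicator_const _ hL]
    simp [mul_comm]
  rw [e2]
  refine integral_mono_of_nonneg ?_ ?_ ?_
  · refine Filter.Eventually.of_forall fun y => ?_
    exact mul_nonneg (Set.indicator_nonneg (fun _ _ => zero_le_one) _) (wt_nonneg A w hw L _)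
  · refine Integrable.mul_const ?_ _
    rw [integrable_indicator_iff hL]
    exact integrableOn_const hLf
  · refine Filter.Eventually.of_forall fun y => ?_
    exact mul_le_mul_of_nonneg_left (hq _) (Set.indicator_nonneg (fun _ _ => zero_le_one) _)

/-- **Counting inequality.** If for each point `x` of `A` the set `M` contains the part `θ` of
`x + L`, then some translate of `L` contains the share `θ² μ L / μ M` of `A`. -/
theorem exists_translate_part (A : Finset E) (w : E → ℝ) (hw : ∀ x ∈ A, 0 ≤ w x) (L M : Set E)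
    (hL : MeasurableSet L) (hM : MeasurableSet M) (hL0 : μ L ≠ 0) (hLf : μ L ≠ ⊤) (hMf : μ M ≠ ⊤)
    (θ : ℝ) (hθ : 0 ≤ θ)
    (hLM : ∀ x ∈ A, θ * μ.real L ≤ μ.real (L ∩ {y | x + y ∈ M})) :
    ∃ t : E, θ ^ 2 * (∑ x ∈ A, w x) * μ.real L ≤ wt A w L t * μ.real M := by
  classical
  obtain ⟨t₀, ht₀⟩ := exists_max_wt A w L
  refine ⟨t₀, ?_⟩
  set q := wt A w L t₀ with hq
  have hq0 : 0 ≤ q := wt_nonneg A w hw L t₀
  set W := ∑ x ∈ A, w x with hW
  have hW0 : 0 ≤ W := Finset.sum_nonneg hw
  have hLr : 0 < μ.real L := ENNReal.toReal_pos hL0 hLf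
  obtain ⟨hg2i, hg2⟩ := sq_bound μ A w hw L hL hLf q ht₀
  set g : E → ℝ := fun z => ∑ x ∈ A, w x * fx L x z with hg
  have hgi : Integrable g μ := by
    refine integrable_finsetSum _ fun x _ => ?_
    exact (fx_integrable μ L hL hLf x).const_mul _
  -- the part in `M`
  set I := ∫ z in M, g z ∂μ with hI
  have hIge : θ * W * μ.real L ≤ I := by
    have h1 : I = ∑ x ∈ A, w x * ∫ z in M, fx L x z ∂μ := by
      rw [hI, hg]
      rw [integral_finsetSum _ (fun x _ => ((fx_integrable μ L hL hLf x).const_mul _).integrableOn)]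
      refine Finset.sum_congr rfl fun x _ => ?_
      rw [integral_const_mul]
    have h2 : ∀ x, ∫ z in M, fx L x z ∂μ = μ.real (L ∩ {y | x + y ∈ M}) := by
      intro x
      rw [← integral_indicator hM]
      rw [← integral_add_right_eq_self (fun z => M.indicator (fun z => fx L x z) z) x]
      have h3 : (fun y => M.indicator (fun z => fx L x z) (y + x))
          = (L ∩ {y | x + y ∈ M}).indicator (fun _ => (1 : ℝ)) := by
        funext y
        by_cases hy : x + y ∈ M
        · by_cases hyL : y ∈ L
          · rw [Set.indicator_of_mem (by rwa [add_comm]),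
              Set.indicator_of_mem (show y ∈ L ∩ {y | x + y ∈ M} from ⟨hyL, hy⟩)]
            unfold fx
            rw [add_sub_cancel_right, Set.indicator_of_mem hyL]
          · rw [Set.indicator_of_mem (by rwa [add_comm]),
              Set.indicator_of_notMem (fun h => hyL h.1)]
            unfold fx
            rw [add_sub_cancel_right, Set.indicator_of_notMem hyL]
        · rw [Set.indicator_of_notMem (by rwa [add_comm]),
            Set.indicator_of_notMem (fun h => hy h.2)]
      have hmeas : MeasurableSet (L ∩ {y | x + y ∈ M}) :=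
        hL.inter ((measurable_const_add x) hM)
      rw [h3, integral_indicator_const _ hmeas]
      simp
    rw [h1, hW, Finset.mul_sum, Finset.sum_mul]
    refine Finset.sum_le_sum fun x hx => ?_
    rw [h2 x]
    calc θ * w x * μ.real L = w x * (θ * μ.real L) := by ring
      _ ≤ w x * μ.real (L ∩ {y | x + y ∈ M}) := mul_le_mul_of_nonneg_left (hLM x hx) (hw x hx)
  have hg2M : ∫ z in M, g z ^ 2 ∂μ ≤ W * (q * μ.real L) := by
    refine le_trans ?_ hg2
    exact setIntegral_le_integral hg2i (Filter.Eventually.of_forall fun z => sq_nonneg _)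
  have hCS : ∀ c : ℝ, 2 * c * I - c ^ 2 * μ.real M ≤ ∫ z in M, g z ^ 2 ∂μ := by
    intro c
    have e3 : 2 * c * I - c ^ 2 * μ.real M = ∫ z in M, (2 * c * g z - c ^ 2) ∂μ := by
      rw [integral_sub (hgi.integrableOn.const_mul _) (integrableOn_const hMf), integral_const_mul]
      simp [mul_comm, hI]
    rw [e3]
    refine integral_mono ((hgi.integrableOn.const_mul _).sub (integrableOn_const hMf))
      hg2i.integrableOn fun z => ?_
    simp only
    nlinarith [sq_nonneg (g z - c)]
  have hI0 : 0 ≤ I := le_trans (by positivity) hIge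
  have hMr : 0 ≤ μ.real M := measureReal_nonneg
  have hIsq : I ^ 2 ≤ W * (q * μ.real L) * μ.real M := by
    rcases eq_or_lt_of_le hMr with h0 | h0
    · -- then `I = 0`
      have : I = 0 := by
        rw [hI]
        have : μ.restrict M = 0 := by
          rw [Measure.restrict_eq_zero]
          have := h0.symm
          rw [measureReal_def, ENNReal.toReal_eq_zero_iff] at this
          exact this.resolve_right hMf
        rw [this, integral_zero_measure]
      rw [this, ← h0]
      simp
    · have h1 := (hCS (I / μ.real M)).trans hg2M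
      have h2 : 2 * (I / μ.real M) * I - (I / μ.real M) ^ 2 * μ.real M = I ^ 2 / μ.real M := by
        field_simp
        ring
      rw [h2, div_le_iff₀ h0] at h1
      exact h1
  rcases eq_or_lt_of_le hW0 with hW1 | hW1
  · rw [← hW1, mul_zero, zero_mul]
    exact mul_nonneg hq0 hMr
  have h5 : (θ * W * μ.real L) ^ 2 ≤ W * (q * μ.real L) * μ.real M :=
    (pow_le_pow_left₀ (by positivity) hIge 2).trans hIsq
  have h6 : (θ ^ 2 * W * μ.real L) * (W * μ.real L) ≤ (q * μ.real M) * (W * μ.real L) := by
    calc (θ ^ 2 * W * μ.real L) * (W * μ.real L) = (θ * W * μ.real L) ^ 2 := by ring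
      _ ≤ W * (q * μ.real L) * μ.real M := h5
      _ = (q * μ.real M) * (W * μ.real L) := by ring
  exact le_of_mul_le_mul_right h6 (by positivity)

end Count

end Pool.Agent.K3h76.UC
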