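import Pool.Agent.K3h76.UC.Ext

set_option autoImplicit false

/-!
The covering criterion: sums of extreme points and points of the body.
-/

namespace Pool.Agent.K3h76.UC

open scoped RealInnerProductSpace Pointwise
open Pool.Agent.W396.Il Module MeasureTheory
open Pool.Agent.K3h76.RB

variable {E : Type*} [NormedAddCommGroup E] [InnerProductSpace ℝ E] [FiniteDimensional ℝ E]
  [MeasurableSpace E] [BorelSpace E] (μ : Measure E) [μ.IsAddHaarMeasure]

/-- The points `x + u`, `u ∈ A`, belong to `M` for the part `θ` of `A`, for all `x` in `X`. -/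
def Part (A X M : Set E) (θ : ℝ) : Prop :=
  ∀ x ∈ X, θ * μ.real A ≤ μ.real (A ∩ {u | x + u ∈ M})

theorem cover_part (A X : Set E) (hA : Convex ℝ A) (hAc : IsCompact A)
    (hAi : (interior A).Nonempty) (hX : X ⊆ A) (d : ℕ) (hd : finrank ℝ E = d) (hd1 : 1 ≤ d)
    (M : Set E) (hM : MeasurableSet M) (hMf : μ M ≠ ⊤) (θ : ℝ) (hθ : 0 < θ) (hθ1 : θ ≤ 1)
    (h : Part μ A X M θ) :
    ∃ T : Finset E, X ⊆ ⋃ t ∈ T, (fun x => t + x) '' interior A ∧
      (T.card : ℝ) ≤ 1 + 8 / θ ^ 2 * (μ.real M / μ.real A) *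
        (d * Real.log (1 + 4 * d * (d + 1) / θ)) := by
  classical
  obtain ⟨z₀, hz₀⟩ := hAi
  have hd0 : (0 : ℝ) < d := by exact_mod_cast hd1
  have hd1' : (1 : ℝ) ≤ d := by exact_mod_cast hd1
  let e : E ≃ₜ E := Homeomorph.addRight z₀
  have he : ∀ y, e y = y + z₀ := fun y => rfl
  set A' : Set E := e ⁻¹' A with hA'
  have hmem : ∀ y, y ∈ A' ↔ y + z₀ ∈ A := fun y => Iff.rfl
  have hA'c : IsCompact A' := e.isCompact_preimage.mpr hAc
  have hA'i : interior A' = e ⁻¹' (interior A) := (e.preimage_interior A).symm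
  have hA'conv : Convex ℝ A' := by
    intro x hx y hy a b ha hb hab
    rw [hmem] at hx hy ⊢
    have := hA hx hy ha hb hab
    have e1 : a • (x + z₀) + b • (y + z₀) = a • x + b • y + z₀ := by
      rw [smul_add, smul_add, add_add_add_comm, ← add_smul, hab, one_smul]
    rwa [e1] at this
  have h0int : (0 : E) ∈ interior A' := by
    rw [hA'i]
    show (0 : E) + z₀ ∈ interior A
    rwa [zero_add]
  have h0 : (0 : E) ∈ A' := interior_subset h0int
  have hvol : μ A' = μ A := by
    rw [hA']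
    exact measure_preimage_add_right μ z₀ A
  have hvolr : μ.real A' = μ.real A := by rw [measureReal_def, hvol]; rfl
  have hAf : μ A ≠ ⊤ := hAc.measure_lt_top.ne
  have hAr : 0 < μ.real A := by
    refine ENNReal.toReal_pos ?_ hAf
    intro h1
    have h2 := isOpen_interior.measure_pos μ ⟨z₀, hz₀⟩
    have h3 : μ (interior A) ≤ μ A := measure_mono interior_subset
    rw [h1] at h3
    exact absurd h2 (not_lt.mpr h3)
  set M' : Set E := {z | z + (z₀ + z₀) ∈ M} with hM'
  have hM'm : MeasurableSet M' := (measurable_add_const (z₀ + z₀)) hM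
  have hM'vol : μ M' = μ M := measure_preimage_add_right μ (z₀ + z₀) M
  have hM'r : μ.real M' = μ.real M := by rw [measureReal_def, hM'vol]; rfl
  set l : ℝ := 1 - θ / (2 * d) with hl
  have hθd : θ / (2 * d) ≤ 1 / 2 := by
    rw [div_le_div_iff₀ (by positivity) two_pos]
    nlinarith
  have hl0 : 0 < l := by rw [hl]; linarith
  have hl1 : l ≤ 1 := by
    rw [hl]
    have : 0 < θ / (2 * d) := by positivity
    linarith
  have hld : 1 - θ / 2 ≤ l ^ d := by
    have h1 := one_add_mul_le_pow (a := -(θ / (2 * d))) (by linarith) d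
    rw [hl, sub_eq_add_neg 1 (θ / (2 * d))]
    refine le_trans (le_of_eq ?_) h1
    field_simp
    ring
  have hsub : l • A' ⊆ A' := by
    rintro _ ⟨y, hy, rfl⟩
    have := hA'conv hy h0 hl0.le (show (0 : ℝ) ≤ 1 - l by linarith) (by ring)
    simpa using this
  have hvoll : μ.real (l • A') = l ^ d * μ.real A := by
    rw [measureReal_def, Measure.addHaar_smul, abs_of_nonneg (by positivity), hd, hvol,
      ENNReal.toReal_mul, ENNReal.toReal_ofReal (by positivity)]
    rfl
  have hlm : MeasurableSet (l • A') := (hA'c.smul l).isClosed.measurableSet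
  set X' : Set E := {y | y + z₀ ∈ X} with hX'
  obtain ⟨T, hT, hcard⟩ := cover_sub μ A' hA'conv hA'c ⟨0, h0int⟩ (by rw [hd]; exact hd1) X'
    (fun y hy => hX hy) M' hM'm (by rw [hM'vol]; exact hMf) l (θ / (4 * d * (d + 1))) (θ / 2)
    hl0 (by positivity) (by positivity)
    (by
      rw [hd, hl]
      have h1 : θ / (4 * d * (d + 1)) + θ / (4 * d * (d + 1)) * (d : ℝ) = θ / (4 * d) := by
        field_simp
        ring
      have h2 : θ / (4 * d) < θ / (2 * (d : ℝ)) := by
        rw [div_lt_div_iff₀ (by positivity) (by positivity)]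
        nlinarith
      linarith)
    (by
      intro x' hx'
      have h1 := h (x' + z₀) hx'
      have h2 : μ.real (A' ∩ {u | x' + u ∈ M'}) = μ.real (A ∩ {u | x' + z₀ + u ∈ M}) := by
        have e1 : A' ∩ {u | x' + u ∈ M'} = (fun y => y + z₀) ⁻¹' (A ∩ {u | x' + z₀ + u ∈ M}) := by
          ext y
          simp only [Set.mem_inter_iff, Set.mem_ofPred_eq, Set.mem_preimage, hmem, hM']
          have : x' + y + (z₀ + z₀) = x' + z₀ + (y + z₀) := by abel
          rw [this]
        rw [e1, measureReal_def, measure_preimage_add_right]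
        rfl
      have h3 : μ.real (A' ∩ {u | x' + u ∈ M'}) ≤
          μ.real ((l • A') ∩ {u | x' + u ∈ M'}) + μ.real (A' \ (l • A')) := by
        have hfin1 : μ ((l • A') ∩ {u | x' + u ∈ M'}) ≠ ⊤ :=
          ne_top_of_le_ne_top (hA'c.smul l).measure_lt_top.ne (measure_mono Set.inter_subset_left)
        have hfin2 : μ (A' \ (l • A')) ≠ ⊤ :=
          ne_top_of_le_ne_top hA'c.measure_lt_top.ne (measure_mono Set.diff_subset)
        rw [measureReal_def, measureReal_def, measureReal_def, ← ENNReal.toReal_add hfin1 hfin2]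
        refine ENNReal.toReal_mono (ENNReal.add_ne_top.mpr ⟨hfin1, hfin2⟩) ?_
        refine (measure_mono ?_).trans (measure_union_le _ _)
        intro y hy
        by_cases hyl : y ∈ l • A'
        · exact Or.inl ⟨hyl, hy.2⟩
        · exact Or.inr ⟨hy.1, hyl⟩
      have h4 : μ.real (A' \ (l • A')) = μ.real A - l ^ d * μ.real A := by
        rw [measureReal_sdiff hsub hlm hA'c.measure_lt_top.ne, hvolr, hvoll]
      rw [hvoll]
      have h5 : l ^ d ≤ 1 := pow_le_one₀ hl0.le hl1
      have h6 : θ / 2 * (l ^ d * μ.real A) ≤ θ / 2 * μ.real A := by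
        have := mul_le_mul_of_nonneg_right h5 hAr.le
        have h7 : 0 ≤ θ / 2 := by positivity
        nlinarith
      have h8 : (1 - θ / 2) * μ.real A ≤ l ^ d * μ.real A :=
        mul_le_mul_of_nonneg_right hld hAr.le
      rw [h2] at h3
      rw [h4] at h3
      linarith)
  refine ⟨T, ?_, ?_⟩
  · intro x hx
    have hx' : x - z₀ ∈ X' := by
      show x - z₀ + z₀ ∈ X
      rwa [sub_add_cancel]
    have h1 := hT hx'
    rw [Set.mem_iUnion₂] at h1 ⊢
    obtain ⟨t, htT, y, hy, hyx⟩ := h1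
    rw [hA'i] at hy
    refine ⟨t, htT, y + z₀, hy, ?_⟩
    simp only at hyx ⊢
    rw [← add_assoc, hyx, sub_add_cancel]
  · refine hcard.trans ?_
    rw [hvoll, hM'r, hd]
    have e1 : (1 : ℝ) + 1 / (θ / (4 * d * (d + 1))) = 1 + 4 * d * (d + 1) / θ := by
      rw [one_div_div]
    rw [e1]
    have hlog : 0 ≤ (d : ℝ) * Real.log (1 + 4 * d * (d + 1) / θ) := by
      refine mul_nonneg hd0.le (Real.log_nonneg ?_)
      have : 0 < 4 * (d : ℝ) * (d + 1) / θ := by positivity
      linarith
    have hl2 : 1 / 2 ≤ l ^ d := by linarith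
    have h9 : μ.real M / ((θ / 2) ^ 2 * (l ^ d * μ.real A)) ≤
        8 / θ ^ 2 * (μ.real M / μ.real A) := by
      have e2 : 8 / θ ^ 2 * (μ.real M / μ.real A) =
          μ.real M / ((θ / 2) ^ 2 * (1 / 2 * μ.real A)) := by
        field_simp
        ring
      rw [e2]
      refine div_le_div_of_nonneg_left measureReal_nonneg (by positivity) ?_
      have := mul_le_mul_of_nonneg_right hl2 hAr.le
      exact mul_le_mul_of_nonneg_left this (by positivity)
    have := mul_le_mul_of_nonneg_right h9 hlog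
    linarith

/-- **The criterion.** -/
theorem crit (A B : Set E) (hA : Convex ℝ A) (hAc : IsCompact A)
    (hAi : (interior A).Nonempty) (hB : Convex ℝ B) (hBc : IsCompact B) (hBn : B.Nonempty)
    (d : ℕ) (hd : finrank ℝ E = d) (hd1 : 1 ≤ d)
    (M : Set E) (hM : MeasurableSet M) (hMf : μ M ≠ ⊤) (θ : ℝ) (hθ : 0 < θ) (hθ1 : θ ≤ 1)
    (h : Part μ A (A.extremePoints ℝ) M θ) :
    ∃ T : Finset E, A + B ⊆ ⋃ t ∈ T, (fun x => t + x) '' interior (A + B) ∧
      (T.card : ℝ) ≤ 1 + 8 / θ ^ 2 * (μ.real M / μ.real A) *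
        (d * Real.log (1 + 4 * d * (d + 1) / θ)) := by
  obtain ⟨T, hT, hcard⟩ := cover_part μ A _ hA hAc hAi extremePoints_subset d hd hd1 M hM hMf θ
    hθ hθ1 h
  obtain ⟨T', hT'card, hT'⟩ := cov_sum hA hAc hAi hB hBc hBn T hT
  exact ⟨T', hT', le_trans (by exact_mod_cast hT'card) hcard⟩

end Pool.Agent.K3h76.UC
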