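import Pool.Agent.K3h76.UC.Uni

set_option autoImplicit false

/-!
Sums of extreme points, thresholds, intersections of balls.
-/

namespace Pool.Agent.K3h76.UC

open scoped RealInnerProductSpace Pointwise ENNReal
open Pool.Agent.W396.Il Module MeasureTheory
open Pool.Agent.K3h76.RB

variable {E : Type*} [NormedAddCommGroup E] [InnerProductSpace ℝ E] [FiniteDimensional ℝ E]
  [MeasurableSpace E] [BorelSpace E] (μ : Measure E) [μ.IsAddHaarMeasure]

theorem real_pos {A : Set E} (hAc : IsCompact A) (hAi : (interior A).Nonempty) :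
    0 < μ.real A := by
  refine ENNReal.toReal_pos ?_ hAc.measure_lt_top.ne
  intro h1
  have h3 := isOpen_interior.measure_pos μ hAi
  have h4 : μ (interior A) ≤ μ A := measure_mono interior_subset
  rw [h1] at h4
  exact absurd h3 (not_lt.mpr h4)

/-- The sum of the body and its extreme points. -/
theorem ext_crit (A B : Set E) (hA : Convex ℝ A) (hAc : IsCompact A)
    (hAi : (interior A).Nonempty) (hB : Convex ℝ B) (hBc : IsCompact B) (hBn : B.Nonempty)
    (d : ℕ) (hd : finrank ℝ E = d) (hd1 : 1 ≤ d) :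
    ∃ T : Finset E, A + B ⊆ ⋃ t ∈ T, (fun x => t + x) '' interior (A + B) ∧
      (T.card : ℝ) ≤ 1 + 8 * (μ.real (A.extremePoints ℝ + A) / μ.real A) *
        (d * Real.log (1 + 4 * d * (d + 1))) := by
  have hfin : μ (A.extremePoints ℝ + A) ≠ ⊤ :=
    ne_top_of_le_ne_top (hAc.add hAc).measure_lt_top.ne
      (measure_mono (Set.add_subset_add_right extremePoints_subset))
  obtain ⟨T, hT, hcard⟩ := crit μ A B hA hAc hAi hB hBc hBn d hd hd1
    (toMeasurable μ (A.extremePoints ℝ + A)) (measurableSet_toMeasurable _ _)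
    (by rwa [measure_toMeasurable]) 1 one_pos le_rfl (by
      intro x hx
      have h1 : A ∩ {u | x + u ∈ toMeasurable μ (A.extremePoints ℝ + A)} = A := by
        refine Set.inter_eq_left.mpr fun u hu => ?_
        exact subset_toMeasurable _ _ (Set.add_mem_add hx hu)
      rw [h1, one_mul])
  refine ⟨T, hT, hcard.trans (le_of_eq ?_)⟩
  have h2 : μ.real (toMeasurable μ (A.extremePoints ℝ + A)) = μ.real (A.extremePoints ℝ + A) := by
    rw [measureReal_def, measure_toMeasurable]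
    rfl
  rw [h2]
  norm_num

/-- Bodies of large volume in a ball. -/
theorem ball_thr (A B : Set E) (hA : Convex ℝ A) (hAc : IsCompact A)
    (hAi : (interior A).Nonempty) (hB : Convex ℝ B) (hBc : IsCompact B) (hBn : B.Nonempty)
    (d : ℕ) (hd : finrank ℝ E = d) (hd1 : 1 ≤ d) (c : E) (R : ℝ)
    (hAR : A ⊆ Metric.closedBall c R)
    (hvol : 15 * (d + 1) ^ 2 * (d * Real.log (1 + 4 * d * (d + 1) ^ 2)) *
      μ.real (Metric.closedBall (0 : E) R) ≤ Real.sqrt 2 ^ d * μ.real A) :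
    ∃ T : Finset E, A + B ⊆ ⋃ t ∈ T, (fun x => t + x) '' interior (A + B) ∧
      T.card < 2 ^ d := by
  have hd0 : (0 : ℝ) < d := by exact_mod_cast hd1
  have hd1' : (1 : ℝ) ≤ d := by exact_mod_cast hd1
  haveI : Nontrivial E := Module.nontrivial_of_finrank_pos (R := ℝ) (by omega)
  have hAr : 0 < μ.real A := real_pos μ hAc hAi
  have hAf : μ A ≠ ⊤ := hAc.measure_lt_top.ne
  have hAm : MeasurableSet A := hAc.isClosed.measurableSet
  have hR : 0 < R := by
    by_contra hcon
    push Not at hcon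
    have h1 : A ⊆ {c} := by
      intro x hx
      have h2 := hAR hx
      rw [Metric.mem_closedBall] at h2
      exact dist_le_zero.1 (h2.trans hcon)
    have h2 : μ.real A ≤ 0 := by
      have h3 : μ A = 0 := measure_mono_null h1 (measure_singleton c)
      rw [measureReal_def, h3]
      simp
    linarith
  set g : E := (μ.real A)⁻¹ • ∫ u in A, u ∂μ with hg
  have hg' : ∫ u in A, u ∂μ = μ.real A • g := by
    rw [hg, smul_smul, mul_inv_cancel₀ hAr.ne', one_smul]
  have hs2 : Real.sqrt 2 ^ 2 = 2 := Real.sq_sqrt two_pos.le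
  have hs0 : 0 < Real.sqrt 2 := Real.sqrt_pos.mpr two_pos
  have h3 : ∫ u in A, ‖u - g‖ ^ 2 ∂μ ≤ R ^ 2 * μ.real A := by
    have h4 := mean_sq μ A hAc g c g hg'
    have h5 : ∫ u in A, ‖g + u - (c + g)‖ ^ 2 ∂μ ≤ ∫ _ in A, R ^ 2 ∂μ := by
      refine setIntegral_mono_on ?_ (integrableOn_const hAf) hAm ?_
      · exact ContinuousOn.integrableOn_compact hAc (by fun_prop)
      · intro u hu
        have h6 : g + u - (c + g) = u - c := by abel
        rw [h6]
        have h7 := hAR hu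
        rw [Metric.mem_closedBall, dist_eq_norm] at h7
        exact pow_le_pow_left₀ (norm_nonneg _) h7 2
    rw [setIntegral_const, smul_eq_mul] at h5
    have h8 : 0 ≤ ‖g - c‖ ^ 2 * μ.real A := by positivity
    linarith
  obtain ⟨T, hT, hcard⟩ := ball_crit μ A B hA hAc hAi hB hBc hBn d hd hd1 c g R
    (Real.sqrt 2 * R) (by positivity) hAR hg' (by
      rw [mul_pow, hs2]
      linarith)
  refine ⟨T, hT, ?_⟩
  set Λ : ℝ := d * Real.log (1 + 4 * d * (d + 1) ^ 2) with hΛ
  have hball : μ.real (Metric.closedBall (0 : E) (Real.sqrt 2 * R)) =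
      Real.sqrt 2 ^ d * μ.real (Metric.closedBall (0 : E) R) := by
    rw [vol_ball μ d hd _ _ (by positivity), vol_ball μ d hd _ R hR.le, mul_pow]
    ring
  have hΛ1 : 1 ≤ Λ := by
    have h9 : (1 : ℝ) ≤ Real.log (1 + 4 * d * (d + 1) ^ 2) := by
      rw [Real.le_log_iff_exp_le (by positivity)]
      have := Real.exp_one_lt_d9
      nlinarith
    rw [hΛ]
    nlinarith
  have hBr : 0 < μ.real (Metric.closedBall (0 : E) R) := by
    refine real_pos μ (isCompact_closedBall _ _) ?_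
    rw [interior_closedBall _ hR.ne']
    exact Metric.nonempty_ball.mpr hR
  have hAB : μ.real A ≤ μ.real (Metric.closedBall (0 : E) R) := by
    have h10 : μ.real A ≤ μ.real (Metric.closedBall c R) :=
      ENNReal.toReal_mono (isCompact_closedBall _ _).measure_lt_top.ne (measure_mono hAR)
    rwa [vol_ball μ d hd c R hR.le, ← vol_ball μ d hd 0 R hR.le] at h10
  have hsd : (15 : ℝ) ≤ Real.sqrt 2 ^ d := by
    have h11 : 15 * ((d : ℝ) + 1) ^ 2 * Λ * μ.real (Metric.closedBall (0 : E) R) ≤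
        Real.sqrt 2 ^ d * μ.real (Metric.closedBall (0 : E) R) :=
      hvol.trans (mul_le_mul_of_nonneg_left hAB (by positivity))
    have h12 := le_of_mul_le_mul_right h11 hBr
    have h13 : 1 ≤ ((d : ℝ) + 1) ^ 2 := by nlinarith
    have h14 : 15 ≤ 15 * ((d : ℝ) + 1) ^ 2 * Λ := by nlinarith
    linarith
  have h2d : (2 : ℝ) ^ d = Real.sqrt 2 ^ d * Real.sqrt 2 ^ d := by
    rw [← mul_pow, ← sq, hs2]
  have hkey : 14 * ((d : ℝ) + 1) ^ 2 *
      (μ.real (Metric.closedBall (0 : E) (Real.sqrt 2 * R)) / μ.real A) * Λ ≤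
      14 / 15 * 2 ^ d := by
    rw [hball]
    have e1 : 14 * ((d : ℝ) + 1) ^ 2 *
        (Real.sqrt 2 ^ d * μ.real (Metric.closedBall (0 : E) R) / μ.real A) * Λ =
        14 / 15 * (Real.sqrt 2 ^ d * (15 * ((d : ℝ) + 1) ^ 2 * Λ *
          μ.real (Metric.closedBall (0 : E) R) / μ.real A)) := by
      field_simp
    rw [e1, h2d]
    have h15 : 15 * ((d : ℝ) + 1) ^ 2 * Λ * μ.real (Metric.closedBall (0 : E) R) / μ.real A ≤
        Real.sqrt 2 ^ d := by
      rw [div_le_iff₀ hAr]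
      exact hvol
    gcongr
  have h16 : (T.card : ℝ) < 2 ^ d := by
    have h17 : (225 : ℝ) ≤ 2 ^ d := by rw [h2d]; nlinarith
    linarith
  exact_mod_cast h16

theorem thr (d n : ℕ) (hd : 6 ≤ d) (X : ℝ)
    (h : (n : ℝ) ≤ 1 + 32 * (2 ^ d * Real.exp (-X)) * (d * Real.log (1 + 8 * d * (d + 1))))
    (hX : 33 * (d * Real.log (1 + 8 * d * (d + 1))) ≤ Real.exp X) : n < 2 ^ d := by
  set Y : ℝ := d * Real.log (1 + 8 * d * (d + 1)) with hY
  have h1 : Real.exp (-X) * Y ≤ 1 / 33 := by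
    rw [Real.exp_neg, inv_mul_le_iff₀ (Real.exp_pos X)]
    linarith
  have h64 : (64 : ℝ) ≤ 2 ^ d := by
    have : (2 : ℝ) ^ 6 ≤ 2 ^ d := pow_le_pow_right₀ (by norm_num) hd
    norm_num at this
    exact this
  have h2 : 32 * (2 ^ d * Real.exp (-X)) * Y ≤ 32 / 33 * 2 ^ d := by
    have h3 := mul_le_mul_of_nonneg_left h1 (show (0 : ℝ) ≤ 32 * 2 ^ d by positivity)
    calc 32 * (2 ^ d * Real.exp (-X)) * Y = 32 * 2 ^ d * (Real.exp (-X) * Y) := by ring
      _ ≤ 32 * 2 ^ d * (1 / 33) := h3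
      _ = 32 / 33 * 2 ^ d := by ring
  have h4 : (n : ℝ) < 2 ^ d := by linarith
  exact_mod_cast h4

/-- **Intersections of balls of radius at most `R`.** -/
theorem balls (P : Set (E × ℝ)) (hP : P.Nonempty) (R : ℝ) (hR : 0 < R)
    (hPR : ∀ c ∈ P, 0 < c.2 ∧ c.2 ≤ R) (A B : Set E)
    (hA : A = ⋂ c ∈ P, Metric.closedBall c.1 c.2) (hAi : (interior A).Nonempty)
    (hB : Convex ℝ B) (hBc : IsCompact B) (hBn : B.Nonempty)
    (d : ℕ) (hd : finrank ℝ E = d) (hd2 : 2 ≤ d) (v : ℝ) (hv : 0 < v)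
    (hvol : v ^ d * μ.real (Metric.closedBall (0 : E) R) ≤ μ.real A) :
    ∃ T : Finset E, A + B ⊆ ⋃ t ∈ T, (fun x => t + x) '' interior (A + B) ∧
      (T.card : ℝ) ≤ 1 + 32 * (2 ^ d * Real.exp (-((d - 2) * v / 8))) *
        (d * Real.log (1 + 8 * d * (d + 1))) := by
  haveI : Nonempty P := hP.to_subtype
  have hgauge : ∀ x : E, gauge (Metric.closedBall (0 : E) R) x = ‖x‖ / R :=
    fun x => gauge_closedBall hR.le x
  obtain ⟨T, hT, hcard⟩ := uc_inter μ (Metric.closedBall (0 : E) R) (convex_closedBall _ _)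
    (isCompact_closedBall _ _) (by
      rw [interior_closedBall _ hR.ne']
      exact Metric.mem_ball_self hR) 2 1 (by norm_num) one_pos (by
      intro x y
      simp only [hgauge, Real.rpow_two, norm_smul]
      have h1 := parallelogram_law_with_norm ℝ x y
      have h2 : ‖(1 / 2 : ℝ)‖ = 1 / 2 := by norm_num
      rw [h2]
      have e1 : (1 / 2 * ‖x + y‖ / R) ^ 2 + 1 * (1 / 2 * ‖x - y‖ / R) ^ 2 =
          (‖x + y‖ ^ 2 + ‖x - y‖ ^ 2) / (4 * R ^ 2) := by
        field_simp
        ring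
      rw [e1, h1]
      refine le_of_eq ?_
      field_simp
      ring) (ι := P) (fun c => c.1.1) (fun c => c.1.2 / R) (by
      intro c
      obtain ⟨h1, h2⟩ := hPR c.1 c.2
      exact ⟨by positivity, by rw [div_le_one hR]; exact h2⟩) A B (by
      rw [hA, Set.biInter_eq_iInter]
      refine Set.iInter_congr fun c => ?_
      obtain ⟨h1, h2⟩ := hPR c.1 c.2
      ext y
      rw [Metric.mem_closedBall, dist_eq_norm, Set.mem_ofPred_eq,
        mem_smul_iff (convex_closedBall _ _) Metric.isClosed_closedBall (by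
          rw [interior_closedBall _ hR.ne']
          exact Metric.mem_ball_self hR) (by positivity), hgauge,
        div_le_div_iff_of_pos_right hR]) hAi hB hBc hBn d hd hd2
    (by exact_mod_cast hd2) v hv hvol
  refine ⟨T, hT, hcard.trans (le_of_eq ?_)⟩
  have e2 : (1 : ℝ) / (2 * (2 : ℝ) ^ (2 : ℝ)) * ((d : ℝ) - 2) * v ^ ((2 : ℝ) - 1) =
      (d - 2) * v / 8 := by
    rw [Real.rpow_two, show (2 : ℝ) - 1 = 1 by norm_num, Real.rpow_one]
    ring
  rw [e2]

end Pool.Agent.K3h76.UC
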