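import Pool.Agent.K3h76.UC.Mid

set_option autoImplicit false

/-!
Intersections of translates of uniformly convex bodies.
-/

namespace Pool.Agent.K3h76.UC

open scoped RealInnerProductSpace Pointwise ENNReal
open Pool.Agent.W396.Il Module MeasureTheory
open Pool.Agent.K3h76.RB

variable {E : Type*} [NormedAddCommGroup E] [InnerProductSpace ℝ E] [FiniteDimensional ℝ E]

theorem mem_smul_iff {L : Set E} (hL : Convex ℝ L) (hLc : IsClosed L)
    (hL0 : (0 : E) ∈ interior L) {r : ℝ} (hr : 0 < r) (x : E) :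
    x ∈ r • L ↔ gauge L x ≤ r := by
  rw [Set.mem_smul_set_iff_inv_smul_mem₀ hr.ne']
  have h1 := gauge_le_one_iff_mem_closure (x := r⁻¹ • x) hL (mem_interior_iff_mem_nhds.mp hL0)
  rw [hLc.closure_eq] at h1
  rw [← h1, gauge_smul_of_nonneg (inv_nonneg.2 hr.le), smul_eq_mul, inv_mul_le_iff₀ hr, mul_one]

/-- The midpoint property of an intersection of translates. -/
theorem mid_inter {L : Set E} (hL : Convex ℝ L) (hLc : IsClosed L)
    (hL0 : (0 : E) ∈ interior L) (q c : ℝ) (hq : 1 ≤ q) (hc : 0 < c)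
    (hineq : ∀ x y, gauge L ((1 / 2 : ℝ) • (x + y)) ^ q + c * gauge L ((1 / 2 : ℝ) • (x - y)) ^ q ≤
      (gauge L x ^ q + gauge L y ^ q) / 2) {r : ℝ} (hr0 : 0 < r) (hr1 : r ≤ 1) {s : ℝ} (hs : 0 < s)
    {a b w : E} (ha : a ∈ r • L) (hb : b ∈ r • L) (hab : a - b ∉ s • L) (hw : w ∈ L) :
    (1 / 2 : ℝ) • (a + b) + (c / q * (s / 2) ^ q) • w ∈ r • L := by
  have habs : Absorbent ℝ L := absorbent_nhds_zero (mem_interior_iff_mem_nhds.mp hL0)
  rw [mem_smul_iff hL hLc hL0 hr0] at ha hb
  rw [mem_smul_iff hL hLc hL0 hs, not_le] at hab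
  have hw1 : gauge L w ≤ 1 := gauge_le_one_of_mem hw
  have hq0 : 0 < q := by linarith
  have hg : ∀ z, 0 ≤ gauge L z := fun z => gauge_nonneg z
  set z := (1 / 2 : ℝ) • (a + b) with hz
  have h1 := hineq a b
  have h2 : (s / 2) ^ q ≤ gauge L ((1 / 2 : ℝ) • (a - b)) ^ q := by
    refine Real.rpow_le_rpow (by positivity) ?_ hq0.le
    rw [gauge_smul_of_nonneg (by norm_num), smul_eq_mul]
    linarith
  have h3 : gauge L a ^ q ≤ r ^ q := Real.rpow_le_rpow (hg _) ha hq0.le
  have h4 : gauge L b ^ q ≤ r ^ q := Real.rpow_le_rpow (hg _) hb hq0.le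
  have h5 : gauge L z ^ q ≤ r ^ q - c * (s / 2) ^ q := by
    have := mul_le_mul_of_nonneg_left h2 hc.le
    linarith
  set δ := c / q * (s / 2) ^ q with hδ
  have hqδ : q * δ = c * (s / 2) ^ q := by rw [hδ]; field_simp
  have hsq : 0 < (s / 2) ^ q := Real.rpow_pos_of_pos (by positivity) _
  have hδ0 : 0 < δ := by positivity
  have hrq1 : r ^ q ≤ r := by
    calc r ^ q ≤ r ^ (1 : ℝ) := Real.rpow_le_rpow_of_exponent_ge hr0 hr1 hq
      _ = r := Real.rpow_one r
  have h6 : q * δ ≤ r ^ q := by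
    have := Real.rpow_nonneg (hg z) q
    rw [hqδ]; linarith
  have hδr : δ ≤ r := by
    have : δ ≤ q * δ := le_mul_of_one_le_left hδ0.le hq
    linarith
  have h7 : r ^ q - q * δ ≤ (r - δ) ^ q := by
    have h8 := one_add_mul_self_le_rpow_one_add (s := -(δ / r)) (by
      have : δ / r ≤ 1 := by rw [div_le_one hr0]; exact hδr
      linarith) hq
    have h9 : (r - δ) ^ q = r ^ q * (1 + -(δ / r)) ^ q := by
      rw [← Real.mul_rpow hr0.le (by
        have : δ / r ≤ 1 := by rw [div_le_one hr0]; exact hδr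
        linarith)]
      congr 1
      field_simp
      ring
    have h10 : r ^ q * (δ / r) ≤ δ := by
      have e : r ^ q * (δ / r) = r ^ q / r * δ := by field_simp
      rw [e]
      have : r ^ q / r ≤ 1 := by rw [div_le_one hr0]; exact hrq1
      nlinarith
    rw [h9]
    have h11 : r ^ q * (1 + q * -(δ / r)) ≤ r ^ q * (1 + -(δ / r)) ^ q :=
      mul_le_mul_of_nonneg_left h8 (Real.rpow_nonneg hr0.le _)
    have h12 : r ^ q * (1 + q * -(δ / r)) = r ^ q - q * (r ^ q * (δ / r)) := by ring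
    have h13 := mul_le_mul_of_nonneg_left h10 hq0.le
    linarith
  have h8 : gauge L z ≤ r - δ := by
    have h9 : gauge L z ^ q ≤ (r - δ) ^ q := by rw [hqδ] at h7; linarith
    exact (Real.rpow_le_rpow_iff (hg z) (by linarith) hq0).1 h9
  rw [mem_smul_iff hL hLc hL0 hr0]
  refine (gauge_add_le hL habs _ _).trans ?_
  rw [gauge_smul_of_nonneg hδ0.le, smul_eq_mul]
  have := mul_le_mul_of_nonneg_left hw1 hδ0.le
  linarith

variable [MeasurableSpace E] [BorelSpace E] (μ : Measure E) [μ.IsAddHaarMeasure]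

/-- **Intersections of translates of a uniformly convex body.** -/
theorem uc_inter (L : Set E) (hL : Convex ℝ L) (hLc : IsCompact L)
    (hL0 : (0 : E) ∈ interior L) (q c : ℝ) (hq : 1 ≤ q) (hc : 0 < c)
    (hineq : ∀ x y, gauge L ((1 / 2 : ℝ) • (x + y)) ^ q + c * gauge L ((1 / 2 : ℝ) • (x - y)) ^ q ≤
      (gauge L x ^ q + gauge L y ^ q) / 2)
    {ι : Type*} [Nonempty ι] (p : ι → E) (r : ι → ℝ) (hr : ∀ i, 0 < r i ∧ r i ≤ 1)
    (A B : Set E) (hA : A = ⋂ i, {y | y - p i ∈ r i • L}) (hAi : (interior A).Nonempty)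
    (hB : Convex ℝ B) (hBc : IsCompact B) (hBn : B.Nonempty)
    (d : ℕ) (hd : finrank ℝ E = d) (hd2 : 2 ≤ d) (hqd : q ≤ d) (v : ℝ) (hv : 0 < v)
    (hvol : v ^ d * μ.real L ≤ μ.real A) :
    ∃ T : Finset E, A + B ⊆ ⋃ t ∈ T, (fun x => t + x) '' interior (A + B) ∧
      (T.card : ℝ) ≤ 1 + 32 * (2 ^ d * Real.exp (-(c / (q * 2 ^ q) * (d - q) * v ^ (q - 1)))) *
        (d * Real.log (1 + 8 * d * (d + 1))) := by
  have hd0 : (0 : ℝ) < d := by positivity
  have hd2' : (2 : ℝ) ≤ d := by exact_mod_cast hd2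
  have hq0 : 0 < q := by linarith
  have hpre : ∀ i, {y | y - p i ∈ r i • L} = (fun y => y - p i) ⁻¹' (r i • L) := fun i => rfl
  have hAconv : Convex ℝ A := by
    rw [hA]
    refine convex_iInter fun i => ?_
    have h1 : {y | y - p i ∈ r i • L} = (fun y => -(p i) + y) ⁻¹' (r i • L) := by
      ext y
      simp only [Set.mem_ofPred_eq, Set.mem_preimage]
      rw [neg_add_eq_sub]
    rw [h1]
    exact (hL.smul (r i)).translate_preimage_right (-(p i))
  have hAcl : IsClosed A := by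
    rw [hA]
    refine isClosed_iInter fun i => ?_
    rw [hpre]
    exact (hLc.smul (r i)).isClosed.preimage (by fun_prop)
  have hAc : IsCompact A := by
    obtain ⟨i₀⟩ := (inferInstance : Nonempty ι)
    have h1 : A ⊆ (fun y => y + p i₀) '' (r i₀ • L) := by
      intro y hy
      rw [hA, Set.mem_iInter] at hy
      exact ⟨y - p i₀, hy i₀, by simp⟩
    exact ((hLc.smul (r i₀)).image (by fun_prop)).of_isClosed_subset hAcl h1
  have hLn : (interior L).Nonempty := ⟨0, hL0⟩
  have hLf : μ L ≠ ⊤ := hLc.measure_lt_top.ne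
  have hLr : 0 < μ.real L := by
    refine ENNReal.toReal_pos ?_ hLf
    intro h1
    have h3 := isOpen_interior.measure_pos μ hLn
    have h4 : μ (interior L) ≤ μ L := measure_mono interior_subset
    rw [h1] at h4
    exact absurd h3 (not_lt.mpr h4)
  have hAf : μ A ≠ ⊤ := hAc.measure_lt_top.ne
  have hAr : 0 < μ.real A := by
    refine ENNReal.toReal_pos ?_ hAf
    intro h1
    have h3 := isOpen_interior.measure_pos μ hAi
    have h4 : μ (interior A) ≤ μ A := measure_mono interior_subset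
    rw [h1] at h4
    exact absurd h3 (not_lt.mpr h4)
  -- the volume radius
  set V : ℝ := (μ.real A / μ.real L) ^ ((d : ℝ)⁻¹) with hV
  have hVpos : 0 < V := Real.rpow_pos_of_pos (by positivity) _
  have hVd : V ^ d = μ.real A / μ.real L := by
    rw [hV]
    exact Real.rpow_inv_natCast_pow (by positivity) (by omega)
  have hVA : μ.real A = V ^ d * μ.real L := by
    rw [hVd]; field_simp
  have hvV : v ≤ V := by
    rw [hVA] at hvol
    exact le_of_pow_le_pow_left₀ (by omega) hVpos.le (le_of_mul_le_mul_right hvol hLr)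
  set κ : ℝ := 1 - 1 / d with hκ
  have hd1i : 1 / (d : ℝ) ≤ 1 / 2 := by
    rw [div_le_div_iff₀ hd0 two_pos]; linarith
  have hκ0 : 0 < κ := by rw [hκ]; linarith
  have hκd : 2 * κ ^ d ≤ 1 := by
    have h1 : κ ≤ Real.exp (-(1 / d)) := by
      have := Real.add_one_le_exp (-(1 / (d : ℝ)))
      rw [hκ]; linarith
    have h2 : κ ^ d ≤ Real.exp (-1) := by
      calc κ ^ d ≤ Real.exp (-(1 / d)) ^ d := by gcongr
        _ = Real.exp (d * (-(1 / d))) := by rw [← Real.exp_nat_mul]
        _ = Real.exp (-1) := by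
          congr 1
          field_simp
    have h3 : Real.exp (-1) ≤ 1 / 2 := by
      rw [Real.exp_neg, inv_le_comm₀ (Real.exp_pos 1) (by norm_num)]
      have := Real.add_one_le_exp (1 : ℝ)
      norm_num
      linarith
    linarith
  set s : ℝ := κ * V with hs
  have hs0 : 0 < s := by positivity
  set δ : ℝ := c / q * (s / 2) ^ q with hδ
  have hδ0 : 0 < δ := by
    have : 0 < (s / 2) ^ q := Real.rpow_pos_of_pos (by positivity) _
    positivity
  obtain ⟨hδV, T, hT, hcard⟩ := mid_crit μ A B hAconv hAc hAi hB hBc hBn d hd (by omega) L hLc hLn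
    s δ V hs0 hδ0 hVpos hVA (by
      rw [hs, mul_pow, ← mul_assoc]
      have : 0 < V ^ d := by positivity
      nlinarith) (by
      intro x hx u hu hxu w hw
      have hx' := extremePoints_subset hx
      rw [hA, Set.mem_iInter] at hx' hu ⊢
      intro i
      have h1 := mid_inter hL hLc.isClosed hL0 q c hq hc hineq (hr i).1 (hr i).2 hs0 (hx' i) (hu i)
        (by rwa [sub_sub_sub_cancel_right]) hw
      show (1 / 2 : ℝ) • (x + u) + δ • w - p i ∈ r i • L
      have e : (1 / 2 : ℝ) • (x + u) + δ • w - p i =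
          (1 / 2 : ℝ) • (x - p i + (u - p i)) + δ • w := by
        have : (1 / 2 : ℝ) • (x - p i + (u - p i)) = (1 / 2 : ℝ) • (x + u) - p i := by
          rw [show x - p i + (u - p i) = (x + u) - (2 : ℝ) • p i by rw [two_smul]; abel,
            smul_sub, smul_smul]
          norm_num
        rw [this]
        abel
      rw [e]
      exact h1)
  refine ⟨T, hT, hcard.trans ?_⟩
  have hlog : 0 ≤ (d : ℝ) * Real.log (1 + 8 * d * (d + 1)) := by
    refine mul_nonneg hd0.le (Real.log_nonneg ?_)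
    have : 0 < 8 * (d : ℝ) * (d + 1) := by positivity
    linarith
  have hmain : (2 * (1 - δ / V)) ^ d ≤
      2 ^ d * Real.exp (-(c / (q * 2 ^ q) * (d - q) * v ^ (q - 1))) := by
    rw [mul_pow]
    refine mul_le_mul_of_nonneg_left ?_ (by positivity)
    have h1 : 0 ≤ 1 - δ / V := by
      rw [sub_nonneg, div_le_one hVpos]; exact hδV
    have h2 : 1 - δ / V ≤ Real.exp (-(δ / V)) := by
      have := Real.add_one_le_exp (-(δ / V))
      linarith
    have h3 : (1 - δ / V) ^ d ≤ Real.exp (-(d * (δ / V))) := by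
      calc (1 - δ / V) ^ d ≤ Real.exp (-(δ / V)) ^ d := by gcongr
        _ = Real.exp (d * (-(δ / V))) := by rw [← Real.exp_nat_mul]
        _ = Real.exp (-(d * (δ / V))) := by ring_nf
    refine h3.trans (Real.exp_le_exp.mpr (neg_le_neg ?_))
    -- lower bound of `d δ / V`
    have hκq : 1 - q / d ≤ κ ^ q := by
      have h4 := one_add_mul_self_le_rpow_one_add (s := -(1 / (d : ℝ))) (by linarith) hq
      have e1 : 1 + -(1 / (d : ℝ)) = κ := by rw [hκ]; ring
      rw [e1] at h4
      have e2 : 1 + q * -(1 / (d : ℝ)) = 1 - q / d := by ring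
      rwa [e2] at h4
    have e30 : (κ * V / 2) ^ q = κ ^ q * (V ^ q / 2 ^ q) := by
      rw [mul_div_assoc, Real.mul_rpow hκ0.le (by positivity), Real.div_rpow hVpos.le two_pos.le]
    have e3 : δ / V = c / (q * 2 ^ q) * κ ^ q * V ^ (q - 1) := by
      rw [hδ, hs, e30, Real.rpow_sub_one hVpos.ne']
      field_simp
    have h5 : v ^ (q - 1) ≤ V ^ (q - 1) := Real.rpow_le_rpow hv.le hvV (by linarith)
    have h2q : 0 < (2 : ℝ) ^ q := Real.rpow_pos_of_pos two_pos _
    have hvq : 0 ≤ v ^ (q - 1) := Real.rpow_nonneg hv.le _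
    have hVq : 0 ≤ V ^ (q - 1) := Real.rpow_nonneg hVpos.le _
    have hqd' : 0 ≤ 1 - q / (d : ℝ) := by
      rw [sub_nonneg, div_le_one hd0]; exact hqd
    have hK : 0 ≤ c / (q * 2 ^ q) := by positivity
    rw [e3]
    calc c / (q * 2 ^ q) * (d - q) * v ^ (q - 1)
        = d * (c / (q * 2 ^ q) * (1 - q / d) * v ^ (q - 1)) := by
          field_simp
      _ ≤ d * (c / (q * 2 ^ q) * κ ^ q * V ^ (q - 1)) := by
          refine mul_le_mul_of_nonneg_left ?_ hd0.le
          refine mul_le_mul ?_ h5 hvq (by positivity)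
          exact mul_le_mul_of_nonneg_left hκq hK
  have h8 : 32 * (2 * (1 - δ / V)) ^ d * ((d : ℝ) * Real.log (1 + 8 * d * (d + 1))) ≤
      32 * (2 ^ d * Real.exp (-(c / (q * 2 ^ q) * (d - q) * v ^ (q - 1)))) *
        (d * Real.log (1 + 8 * d * (d + 1))) := by
    refine mul_le_mul_of_nonneg_right ?_ hlog
    exact mul_le_mul_of_nonneg_left hmain (by norm_num)
  linarith

end Pool.Agent.K3h76.UC
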